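import Pool.Agent.H16.MT.PcB

/-!
Row Lif (MP_c844e7, about 160 lines).  Lifting of the polar map through a normal domain.

PROOF.  Let `X = ↥(Metric.ball p r)`, `Y = ↥U`, `F : Y → X` the restriction of `f` (`h.maps`), `s = {x : X | ¬ ax x}`.
`F` is continuous, and preimages of compact sets are compact (`h.prop`, through `Subtype.val`), so `F` is proper (`isProperMap_iff_isCompact_preimage`; `X` is locally compact because the ball is open), hence closed.
Fibres are finite: `F ⁻¹' {x}` is compact and discrete (`h.disc`) (`IsCompact.finite`).  `IsLocalHomeomorphOn F (F ⁻¹' s)`: at `u ∈ U` with `¬ ax (f u)` choose an open `W ∋ u`, `W ⊆ U`, with `f` injective on `W` (`h.linj`);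
the restriction of `f` to `W` is injective, continuous and open (`h.opnm`), so an open embedding: `isLocalHomeomorphOn_iff_isOpenEmbedding_restrict` or `IsLocalHomeomorphOn.mk` with an `OpenPartialHomeomorph` built by
`IsOpenEmbedding.toOpenPartialHomeomorph` / `Set.InjOn.toPartialEquiv` (`OpenPartialHomeomorph.ofContinuousOpenRestrict`).
`IsClosedMap.isCoveringMapOn_of_isLocalHomeomorphOn` (Mathlib.Topology.Covering.Basic): `F` is a covering map on `s`.
`A = ↥(Ut p r)` is convex and nonempty (`Ut_convex`), so contractible (`Convex.contractibleSpace`), simply connected, and locally path connected (open subset of a normed space: `IsOpen.locallyPathConnectedSpace`).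
`IsCoveringMapOn.existsUnique_continuousMap_lifts` (Mathlib.Topology.Homotopy.Lifting) for the map `A → X`, `q ↦ pc q` (values in `s` by `pc_not_ax`), with `a₀ = q`, `e₀ = a`: a continuous `A → Y`.  Extend it by `0`
(or anything) outside `Ut p r` to get `g` (`continuousOn_iff_continuous_restrict`).
-/

set_option autoImplicit false

open MeasureTheory Set

namespace MB

variable {n : ℕ}

theorem exists_lift {f : E (n + 2) → E (n + 2)} {U : Set (E (n + 2))} {p : E (n + 2)} {r : ℝ}
    (hp : ax p) (h : Nrm f U p r) {a q : E (n + 2)} (ha : a ∈ U) (hq : pc q = f a) :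
    ∃ g : E (n + 2) → E (n + 2), ContinuousOn g (Ut p r) ∧ g q = a ∧
      ∀ q' ∈ Ut p r, g q' ∈ U ∧ f (g q') = pc q' := by
  classical
  have hqU : q ∈ Ut p r := by
    show pc q ∈ Metric.ball p r
    rw [hq]
    exact h.maps ha
  let F : U → (Metric.ball p r : Set (E (n + 2))) := fun u => ⟨f u, h.maps u.2⟩
  have hFc : Continuous F := by
    refine Continuous.subtype_mk ?_ _
    exact continuousOn_iff_continuous_domRestrict.mp h.cont
  haveI : LocallyCompactSpace (Metric.ball p r : Set (E (n + 2))) :=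
    Metric.isOpen_ball.locallyCompactSpace
  have hFp : IsProperMap F := by
    rw [isProperMap_iff_isCompact_preimage]
    refine ⟨hFc, fun K hK => ?_⟩
    have h1 : IsCompact (Subtype.val '' K) := hK.image continuous_subtype_val
    have h2 := h.prop (Subtype.val '' K) (by rintro _ ⟨x, -, rfl⟩; exact x.2) h1
    rw [Subtype.isCompact_iff]
    convert h2 using 1
    ext x
    constructor
    · rintro ⟨u, hu, rfl⟩
      exact ⟨u.2, F u, hu, rfl⟩
    · rintro ⟨hxU, y, hy, hyx⟩
      refine ⟨⟨x, hxU⟩, ?_, rfl⟩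
      have : F ⟨x, hxU⟩ = y := Subtype.ext hyx.symm
      rw [mem_preimage, this]
      exact hy
  have hFo : IsOpenMap F := by
    intro O hO
    have h1 : IsOpen (Subtype.val '' O : Set (E (n + 2))) := h.opn.isOpenMap_subtype_val O hO
    have h2 := h.opnm (Subtype.val '' O) (by rintro _ ⟨x, -, rfl⟩; exact x.2) h1
    have h3 : F '' O = Subtype.val ⁻¹' (f '' (Subtype.val '' O)) := by
      ext y
      constructor
      · rintro ⟨u, hu, rfl⟩
        exact ⟨u, ⟨u, hu, rfl⟩, rfl⟩
      · rintro ⟨_, ⟨u, hu, rfl⟩, hy⟩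
        exact ⟨u, hu, Subtype.ext hy⟩
    rw [h3]
    exact h2.preimage continuous_subtype_val
  have hfin : ∀ x : (Metric.ball p r : Set (E (n + 2))), (F ⁻¹' {x}).Finite := by
    intro x
    have hc : IsCompact (F ⁻¹' {x}) := hFp.isCompact_preimage isCompact_singleton
    have hW : ∀ u : U, ∃ W ∈ nhds u, ∀ z ∈ W, F z = F u → z = u := by
      intro u
      obtain ⟨W, hW, hWz⟩ := h.disc u u.2
      refine ⟨Subtype.val ⁻¹' W, continuous_subtype_val.continuousAt.preimage_mem_nhds hW, ?_⟩
      intro z hz hzu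
      exact Subtype.ext (hWz z hz (congrArg Subtype.val hzu))
    choose W hW1 hW2 using hW
    obtain ⟨t, ht1, ht2⟩ := hc.elim_nhds_subcover W fun u _ => hW1 u
    refine t.finite_toSet.subset fun u hu => ?_
    obtain ⟨v, hv, huv⟩ := mem_iUnion₂.mp (ht2 hu)
    have h1 : F u = F v := by
      have e1 : F u = x := hu
      have e2 : F v = x := ht1 v hv
      rw [e1, e2]
    rw [hW2 v u huv h1]
    exact hv
  let s : Set (Metric.ball p r : Set (E (n + 2))) := {x | ¬ ax (x : E (n + 2))}
  have hloc : IsLocalHomeomorphOn F (F ⁻¹' s) := by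
    rw [isLocalHomeomorphOn_iff_isOpenEmbedding_restrict]
    intro u hu
    obtain ⟨W, hW, hWi⟩ := h.linj u u.2 hu
    refine ⟨Subtype.val ⁻¹' interior W, ?_, ?_⟩
    · exact continuous_subtype_val.continuousAt.preimage_mem_nhds (interior_mem_nhds.mpr hW)
    · rw [Topology.isOpenEmbedding_iff_continuous_injective_isOpenMap]
      refine ⟨hFc.comp continuous_subtype_val, ?_, ?_⟩
      · rintro ⟨x, hx⟩ ⟨y, hy⟩ hxy
        apply Subtype.ext
        apply Subtype.ext
        exact hWi (interior_subset hx) (interior_subset hy) (congrArg Subtype.val hxy)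
      · exact hFo.comp ((isOpen_interior.preimage continuous_subtype_val).isOpenMap_subtype_val)
  have hcov : IsCoveringMapOn F s :=
    hFp.isClosedMap.isCoveringMapOn_of_isLocalHomeomorphOn (fun x _ => hfin x) hloc
  haveI : ContractibleSpace (Ut p r) := (Ut_convex hp r).contractibleSpace ⟨q, hqU⟩
  haveI : LocallyPathConnectedSpace (Ut p r) := (Ut_open p r).locallyPathConnectedSpace
  let φ : C(Ut p r, (Metric.ball p r : Set (E (n + 2)))) :=
    ⟨fun x => ⟨pc (x : E (n + 2)), x.2⟩,
      Continuous.subtype_mk (pc_cont.comp continuous_subtype_val) _⟩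
  obtain ⟨G, ⟨hG1, hG2⟩, -⟩ := hcov.existsUnique_continuousMap_lifts φ (a₀ := ⟨q, hqU⟩)
    (e₀ := ⟨a, ha⟩) (Subtype.ext hq.symm) (fun x => pc_not_ax (x : E (n + 2)))
  refine ⟨fun x => if hx : x ∈ Ut p r then (G ⟨x, hx⟩ : E (n + 2)) else 0, ?_, ?_, ?_⟩
  · rw [continuousOn_iff_continuous_domRestrict]
    have h1 : (Ut p r).domRestrict
        (fun x => if hx : x ∈ Ut p r then (G ⟨x, hx⟩ : E (n + 2)) else 0) =
        fun x : Ut p r => (G x : E (n + 2)) := by
      funext x
      simp only [Set.domRestrict]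
      rw [dif_pos x.2]
    rw [h1]
    exact continuous_subtype_val.comp G.continuous
  · show (if hx : q ∈ Ut p r then (G ⟨q, hx⟩ : E (n + 2)) else 0) = a
    rw [dif_pos hqU, hG1]
  · intro q' hq'
    show (if hx : q' ∈ Ut p r then (G ⟨q', hx⟩ : E (n + 2)) else 0) ∈ U ∧
      f (if hx : q' ∈ Ut p r then (G ⟨q', hx⟩ : E (n + 2)) else 0) = pc q'
    rw [dif_pos hq']
    refine ⟨(G ⟨q', hq'⟩).2, ?_⟩
    have h1 := congrFun hG2 ⟨q', hq'⟩
    exact congrArg Subtype.val h1

end MB
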