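import Pool.Agent.H16.MT.PcA

/-!
Row Wda (MP_c844e7, about 140 lines).  Elementary properties of the winding map.

PROOF.  `z = ⟨y 0, y 1⟩ : ℂ`, `φ z = z^k/‖z‖^(k-1)`, `‖φ z‖ = ‖z‖` (for `z ≠ 0`: `‖z‖^k/‖z‖^(k-1) = ‖z‖`; for `z = 0`: `0^k = 0`), `φ z = 0 ↔ z = 0`.
`winding_dist`: `‖winding k y - p‖² = (Re φ z)² + (Im φ z)² + ∑_{i ≥ 2} (y i - p i)² = ‖φ z‖² + … = ‖z‖² + … = ‖y - p‖²` because `p 0 = p 1 = 0` (`EuclideanSpace.real_norm_sq_eq`, `Fin.sum_univ_succ`).
`winding_cont`: coordinatewise; `φ` is continuous at `z ≠ 0` (quotient) and at `0` (`‖φ z‖ ≤ ‖z‖`); write `φ z = if z = 0 then 0 else …` or use `continuous_iff_continuousAt` and `squeeze_zero_norm`.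
`winding_card`: if `ax z`: `winding k y = z` implies `ax y`, so `y = winding k y = z`: at most one point.  Otherwise let `pc q = z` (`pc_surj`).  If `winding k y = z` then `¬ ax y`, `y = pc q'`, `pc (sk k q') = pc q`,
so (`pc_eq_iff`) `sk k q' = sh j q` for some `j : ℤ`: `k * q' 1 = q 1 + 2πj`, other coordinates equal to those of `q`.  So `y = c j` with `c j = pc (q with the coordinate 1 replaced by (q 1 + 2πj)/k)`, and
`c (j + k) = c j` (`pc_sh`), so `y = c (j % k)`: the set is contained in the image of `Finset.range k` under `c ∘ (↑)`; `Set.encard_le_encard`, `Set.encard_coe_eq_coe_finsetCard`, `Finset.card_image_le`.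
-/

set_option autoImplicit false

open MeasureTheory Set

namespace MB

variable {n k : ℕ}

/-- The winding map of the plane. -/
noncomputable def Wda_phi (k : ℕ) (z : ℂ) : ℂ := z ^ k / (‖z‖ : ℂ) ^ (k - 1)

lemma Wda_zero (hk : 1 ≤ k) : Wda_phi k 0 = 0 := by
  unfold Wda_phi
  rw [zero_pow (by omega), zero_div]

lemma Wda_norm (hk : 1 ≤ k) (z : ℂ) : ‖Wda_phi k z‖ = ‖z‖ := by
  by_cases hz : z = 0
  · rw [hz, Wda_zero hk]
  · have h1 : ‖z‖ ≠ 0 := norm_ne_zero_iff.2 hz
    obtain ⟨m, rfl⟩ : ∃ m, k = m + 1 := ⟨k - 1, by omega⟩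
    unfold Wda_phi
    rw [norm_div, norm_pow, norm_pow, Complex.norm_real, norm_norm, Nat.add_sub_cancel,
      pow_succ]
    field_simp

lemma Wda_cont (hk : 1 ≤ k) : Continuous (Wda_phi k) := by
  rw [continuous_iff_continuousAt]
  intro z
  by_cases hz : z = 0
  · subst hz
    unfold ContinuousAt
    rw [Wda_zero hk]
    refine squeeze_zero_norm (a := fun z => ‖z‖) (fun z => (Wda_norm hk z).le) ?_
    exact tendsto_norm_zero
  · unfold Wda_phi
    refine ContinuousAt.div (by fun_prop) (by fun_prop) ?_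
    exact pow_ne_zero _ (Complex.ofReal_ne_zero.2 (norm_ne_zero_iff.2 hz))

lemma Wda_0 (y : E (n + 2)) : winding k y 0 = (Wda_phi k ⟨y 0, y 1⟩).re := by
  simp [winding, Wda_phi]

lemma Wda_1 (y : E (n + 2)) : winding k y 1 = (Wda_phi k ⟨y 0, y 1⟩).im := by
  simp [winding, Wda_phi]

lemma Wda_i (y : E (n + 2)) (i : Fin (n + 2)) (h0 : i ≠ 0) (h1 : i ≠ 1) :
    winding k y i = y i := by
  simp [winding, h0, h1]

theorem winding_of_ax (hk : 1 ≤ k) (y : E (n + 2)) (hy : ax y) : winding k y = y := by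
  have hz : (⟨y 0, y 1⟩ : ℂ) = 0 := by
    apply Complex.ext
    · exact hy.1
    · exact hy.2
  ext i
  by_cases h0 : i = 0
  · subst h0
    rw [Wda_0, hz, Wda_zero hk, hy.1, Complex.zero_re]
  by_cases h1 : i = 1
  · subst h1
    rw [Wda_1, hz, Wda_zero hk, hy.2, Complex.zero_im]
  exact Wda_i y i h0 h1

theorem ax_winding (hk : 1 ≤ k) (y : E (n + 2)) : ax (winding k y) ↔ ax y := by
  unfold ax
  rw [Wda_0, Wda_1]
  constructor
  · rintro ⟨h0, h1⟩
    have h2 : Wda_phi k ⟨y 0, y 1⟩ = 0 := Complex.ext h0 h1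
    have h3 := Wda_norm hk ⟨y 0, y 1⟩
    rw [h2, norm_zero] at h3
    have h4 : (⟨y 0, y 1⟩ : ℂ) = 0 := norm_eq_zero.1 h3.symm
    exact ⟨congrArg Complex.re h4, congrArg Complex.im h4⟩
  · rintro ⟨h0, h1⟩
    have hz : (⟨y 0, y 1⟩ : ℂ) = 0 := Complex.ext h0 h1
    rw [hz, Wda_zero hk]
    exact ⟨rfl, rfl⟩

theorem winding_dist (hk : 1 ≤ k) {p : E (n + 2)} (hp : ax p) (y : E (n + 2)) :
    ‖winding k y - p‖ = ‖y - p‖ := by
  refine (sq_eq_sq₀ (norm_nonneg _) (norm_nonneg _)).1 ?_
  rw [EuclideanSpace.real_norm_sq_eq, EuclideanSpace.real_norm_sq_eq, Fin.sum_univ_succ,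
    Fin.sum_univ_succ, Fin.sum_univ_succ (n := n + 1), Fin.sum_univ_succ (n := n)]
  have h01 : (Fin.succ 0 : Fin (n + 2)) = 1 := rfl
  have hs : ∀ i : Fin n, (winding k y - p) i.succ.succ = (y - p) i.succ.succ := by
    intro i
    rw [PiLp.sub_apply, PiLp.sub_apply, Wda_i y i.succ.succ (Fin.succ_ne_zero _)]
    intro h
    rw [← h01] at h
    exact Fin.succ_ne_zero _ (Fin.succ_injective _ h)
  have e1 : ∑ i : Fin n, (winding k y - p) i.succ.succ ^ 2 =
      ∑ i : Fin n, (y - p) i.succ.succ ^ 2 := Finset.sum_congr rfl fun i _ => by rw [hs]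
  rw [e1, h01, PiLp.sub_apply, PiLp.sub_apply, PiLp.sub_apply, PiLp.sub_apply, Wda_0, Wda_1,
    hp.1, hp.2]
  have h3 : ‖Wda_phi k ⟨y 0, y 1⟩‖ ^ 2 = ‖(⟨y 0, y 1⟩ : ℂ)‖ ^ 2 := by rw [Wda_norm hk]
  rw [← Complex.normSq_eq_norm_sq, ← Complex.normSq_eq_norm_sq, Complex.normSq_apply,
    Complex.normSq_apply] at h3
  simp only [] at h3
  simp only [sub_zero]
  nlinarith [h3]

theorem winding_cont (hk : 1 ≤ k) : Continuous (winding (n := n) k) := by
  have hz : Continuous fun y : E (n + 2) => (⟨y 0, y 1⟩ : ℂ) := by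
    have : (fun y : E (n + 2) => (⟨y 0, y 1⟩ : ℂ)) =
        fun y : E (n + 2) => ((y 0 : ℝ) : ℂ) + ((y 1 : ℝ) : ℂ) * Complex.I := by
      funext y
      apply Complex.ext <;> simp
    rw [this]
    fun_prop
  refine (PiLp.continuous_toLp 2 _).comp (continuous_pi fun i => ?_)
  by_cases h0 : i = 0
  · subst h0
    simp only [if_true]
    exact Complex.continuous_re.comp ((Wda_cont hk).comp hz)
  by_cases h1 : i = 1
  · subst h1
    simp only [if_true, if_neg h0]
    exact Complex.continuous_im.comp ((Wda_cont hk).comp hz)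
  simp only [if_neg h0, if_neg h1]
  fun_prop

/-- The point with the angle `(q 1 + 2πj)/k`. -/
noncomputable def Wda_pt (k : ℕ) (q : E (n + 2)) (j : ℤ) : E (n + 2) :=
  WithLp.toLp 2 fun i => if i = 1 then (q 1 + 2 * Real.pi * j) / k else q i

lemma Wda_pt_sh (hk : 1 ≤ k) (q : E (n + 2)) (j m : ℤ) :
    sh m (Wda_pt k q j) = Wda_pt k q (j + k * m) := by
  have hk0 : (k : ℝ) ≠ 0 := by exact_mod_cast (by omega : k ≠ 0)
  ext i
  by_cases h1 : i = 1
  · simp only [sh, Wda_pt, h1, if_true]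
    push_cast
    field_simp
    ring
  · simp [sh, Wda_pt, h1]

theorem winding_card (hk : 1 ≤ k) (z : E (n + 2)) : {y : E (n + 2) | winding k y = z}.encard ≤ k := by
  have hk0 : (k : ℝ) ≠ 0 := by exact_mod_cast (by omega : k ≠ 0)
  by_cases hz : ax z
  · have h1 : {y : E (n + 2) | winding k y = z} ⊆ {z} := by
      intro y hy
      have hy' : winding k y = z := hy
      have : ax y := by rw [← ax_winding hk y, hy']; exact hz
      rw [winding_of_ax hk y this] at hy'
      exact hy'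
    refine (Set.encard_le_encard h1).trans ?_
    rw [Set.encard_singleton]
    exact_mod_cast hk
  · obtain ⟨q, hq⟩ := pc_surj z hz
    have h1 : {y : E (n + 2) | winding k y = z} ⊆
        ((Finset.range k).image (fun i : ℕ => pc (Wda_pt k q (i : ℤ))) : Finset (E (n + 2))) := by
      intro y hy
      have hy' : winding k y = z := hy
      have hay : ¬ ax y := by rw [← ax_winding hk y, hy']; exact hz
      obtain ⟨q', hq'⟩ := pc_surj y hay
      rw [← hq', winding_pc hk, ← hq] at hy'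
      obtain ⟨j, hj⟩ := (pc_eq_iff q (sk k q')).1 hy'.symm
      have hpt : q' = Wda_pt k q j := by
        ext i
        have hi := congrArg (fun v : E (n + 2) => v i) hj
        by_cases h1 : i = 1
        · simp only [sk, sh, h1, if_true] at hi
          simp only [Wda_pt, h1, if_true]
          rw [← hi]
          field_simp
        · simp only [sk, sh, if_neg h1] at hi
          simp only [Wda_pt, if_neg h1]
          exact hi
      have hkz : (0 : ℤ) < k := by exact_mod_cast (by omega : 0 < k)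
      have hmod := Int.emod_add_mul_ediv j k
      have hnn := Int.emod_nonneg j hkz.ne'
      have hlt := Int.emod_lt_of_pos j hkz
      rw [Finset.coe_image]
      refine ⟨(j % k).toNat, ?_, ?_⟩
      · rw [Finset.mem_coe, Finset.mem_range]
        omega
      · simp only []
        rw [Int.toNat_of_nonneg hnn, ← hq', hpt]
        conv_rhs => rw [← hmod, ← Wda_pt_sh hk, pc_sh]
    refine (Set.encard_le_encard h1).trans ?_
    rw [Set.encard_coe_eq_coe_finsetCard]
    have h2 := Finset.card_image_le (s := Finset.range k)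
      (f := fun i : ℕ => pc (Wda_pt k q (i : ℤ)))
    rw [Finset.card_range] at h2
    exact_mod_cast h2

end MB
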