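import Pool.Agent.H16.MT.Per
import Pool.Agent.H16.MT.Lif
import Pool.Agent.H16.MT.Wda

/-!
Row Des (MP_c844e7, about 130 lines).  The lift descends to the ball without the axis.

PROOF.  `f '' U` is open (`h.opnm U`) and nonempty, so it contains a point off the axis (if `ax y`, `y + t e₀`, `e₀ = EuclideanSpace.single 0 1`, `t > 0` small, is off the axis): `a ∈ U`, `¬ ax (f a)`, `pc q₁ = f a` (`pc_surj`); let
`g` be the lift (`exists_lift`) and `k` its period (`exists_period`).  For `y ∈ Bp p r` choose `q = c y` with `pc q = y` (`pc_surj`, choice) and put `G y = g (sk k (c y))`; `c y ∈ Ut p r`, `sk k (c y) ∈ Ut p r` (`sk_mem_Ut`).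
(1) `G (pc q) = g (sk k q)` for all `q ∈ Ut p r`: `c (pc q) = sh j q` (`pc_eq_iff`), `sk k (sh j q) = sh (k * j) (sk k q)` (`sk_sh`), and `g` is invariant under `sh (k * j)`.
(2) continuity at `y₀ = pc q₀ ∈ Bp p r`: with the section `s` of `pc_section q₀`, for `y` near `y₀` `s y ∈ Ut p r` and `G y = G (pc (s y)) = g (sk k (s y))`, which is continuous at `y₀` (`sk_cont`, `Ut_open`).
(3) `f (G (pc q)) = f (g (sk k q)) = pc (sk k q) = winding k (pc q)` (`winding_pc`).
(4) injectivity: `G (pc a) = G (pc b)`: apply `f`: `pc (sk k a) = pc (sk k b)`, so `sk k b = sh j (sk k a)`, and `g (sh j (sk k a)) = g (sk k a)`, so `k ∣ j`, `j = k * i`, `sk k b = sk k (sh i a)` (`sk_sh`), `b = sh i a`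
(`sk_inj`), `pc b = pc a` (`pc_sh`).
-/

set_option autoImplicit false

open MeasureTheory Set

namespace MB

variable {n : ℕ}

theorem Des_off_axis {f : E (n + 2) → E (n + 2)} {U : Set (E (n + 2))} {p : E (n + 2)} {r : ℝ}
    (h : Nrm f U p r) (hne : U.Nonempty) : ∃ a ∈ U, ¬ ax (f a) := by
  obtain ⟨x, hx⟩ := hne
  have ho : IsOpen (f '' U) := h.opnm U subset_rfl h.opn
  have hy : f x ∈ f '' U := ⟨x, hx, rfl⟩
  by_cases hax : ax (f x)
  · obtain ⟨ε, hε, hball⟩ := Metric.isOpen_iff.1 ho (f x) hy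
    have hmem : f x + (ε / 2) • (EuclideanSpace.single 0 (1 : ℝ) : E (n + 2)) ∈
        Metric.ball (f x) ε := by
      rw [Metric.mem_ball, dist_eq_norm, add_sub_cancel_left, norm_smul]
      simp only [EuclideanSpace.norm_single, norm_one, mul_one, Real.norm_eq_abs]
      rw [abs_of_pos (by positivity)]
      linarith
    obtain ⟨a, haU, ha⟩ := hball hmem
    refine ⟨a, haU, ?_⟩
    rw [ha]
    intro hc
    have h0 := hc.1
    have h1 := hax.1
    simp only [PiLp.add_apply, PiLp.smul_apply, EuclideanSpace.single_apply, if_true, smul_eq_mul,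
      mul_one, h1, zero_add] at h0
    linarith
  · exact ⟨x, hx, hax⟩

theorem exists_desc {f : E (n + 2) → E (n + 2)} {U : Set (E (n + 2))} {p : E (n + 2)} {r : ℝ}
    (hp : ax p) (hr : 0 < r) (h : Nrm f U p r) (hne : U.Nonempty) :
    ∃ k : ℕ, 1 ≤ k ∧ ∃ G : E (n + 2) → E (n + 2), ContinuousOn G (Bp p r) ∧ InjOn G (Bp p r) ∧
      ∀ y ∈ Bp p r, G y ∈ U ∧ f (G y) = winding k y := by
  classical
  obtain ⟨a, haU, haax⟩ := Des_off_axis h hne
  obtain ⟨q₁, hq₁⟩ := pc_surj (f a) haax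
  obtain ⟨g, hg, -, hg'⟩ := exists_lift hp h haU hq₁
  obtain ⟨k, hk, hper⟩ := exists_period hp hr h hg hg'
  have hc : ∀ y : E (n + 2), ∃ q : E (n + 2), ¬ ax y → pc q = y := by
    intro y
    by_cases hy : ax y
    · exact ⟨y, fun h => absurd hy h⟩
    · obtain ⟨q, hq⟩ := pc_surj y hy
      exact ⟨q, fun _ => hq⟩
  choose c hc using hc
  -- membership
  have hUt : ∀ q : E (n + 2), pc q ∈ Bp p r → q ∈ Ut p r := fun q hq => hq.1
  have hskU : ∀ q : E (n + 2), q ∈ Ut p r → sk k q ∈ Ut p r := fun q hq => (sk_mem_Ut hp q).2 hq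
  have hBp : ∀ q : E (n + 2), q ∈ Ut p r → pc q ∈ Bp p r := fun q hq => ⟨hq, pc_not_ax q⟩
  -- (1)
  have h1 : ∀ q ∈ Ut p r, g (sk k (c (pc q))) = g (sk k q) := by
    intro q hq
    have hcq : pc (c (pc q)) = pc q := hc (pc q) (pc_not_ax q)
    obtain ⟨j, hj⟩ := (pc_eq_iff q (c (pc q))).1 hcq.symm
    rw [hj, sk_sh]
    exact (hper (sk k q) (hskU q hq) (k * j)).2 (Dvd.intro j rfl)
  -- (3)
  have h3 : ∀ q ∈ Ut p r, f (g (sk k q)) = winding k (pc q) := by
    intro q hq
    rw [(hg' _ (hskU q hq)).2, winding_pc hk]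
  refine ⟨k, hk, fun y => g (sk k (c y)), ?_, ?_, ?_⟩
  · -- (2)
    intro y hy
    have hyc : pc (c y) = y := hc y hy.2
    obtain ⟨s, hs, hs0, hs1⟩ := pc_section (c y)
    rw [hyc] at hs hs0 hs1
    have hq₀ : c y ∈ Ut p r := hUt _ (by rw [hyc]; exact hy)
    have hev : ∀ᶠ z in nhds y, s z ∈ Ut p r := by
      apply hs.eventually_mem
      rw [hs0]
      exact (Ut_open p r).mem_nhds hq₀
    have heq : (fun z => g (sk k (c z))) =ᶠ[nhds y] fun z => g (sk k (s z)) := by
      filter_upwards [hev, hs1] with z hz1 hz2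
      have := h1 (s z) hz1
      rw [hz2] at this
      exact this
    have hcont : ContinuousAt (fun z => g (sk k (s z))) y := by
      have hgc : ContinuousAt g (sk k (s y)) := by
        rw [hs0]
        exact hg.continuousAt ((Ut_open p r).mem_nhds (hskU _ hq₀))
      have hskc : ContinuousAt (fun z => sk k (s z)) y := (sk_cont k).continuousAt.comp hs
      exact ContinuousAt.comp (f := fun z => sk k (s z)) hgc hskc
    exact (hcont.congr heq.symm).continuousWithinAt
  · -- (4)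
    intro y hy z hz hyz
    have hyc : pc (c y) = y := hc y hy.2
    have hzc : pc (c z) = z := hc z hz.2
    have hyU : c y ∈ Ut p r := hUt _ (by rw [hyc]; exact hy)
    have hzU : c z ∈ Ut p r := hUt _ (by rw [hzc]; exact hz)
    have hyz' : g (sk k (c y)) = g (sk k (c z)) := hyz
    have hpc : pc (sk k (c y)) = pc (sk k (c z)) := by
      rw [← (hg' _ (hskU _ hyU)).2, ← (hg' _ (hskU _ hzU)).2, hyz']
    obtain ⟨j, hj⟩ := (pc_eq_iff _ _).1 hpc
    have hgj : g (sh j (sk k (c y))) = g (sk k (c y)) := by rw [← hj, hyz']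
    obtain ⟨i, hi⟩ := (hper _ (hskU _ hyU) j).1 hgj
    have hsk : sk k (c z) = sk k (sh i (c y)) := by rw [hj, hi, sk_sh]
    have := sk_inj hk _ _ hsk
    rw [← hyc, ← hzc, this, pc_sh]
  · intro y hy
    have hyc : pc (c y) = y := hc y hy.2
    have hyU : c y ∈ Ut p r := hUt _ (by rw [hyc]; exact hy)
    refine ⟨(hg' _ (hskU _ hyU)).1, ?_⟩
    have := h3 (c y) hyU
    rw [hyc] at this
    exact this

end MB
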