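import Pool.Agent.H16.MB.Defs

/-!
# MP_c844e7 (Martio), topological part: definitions

Maps `f` near a point `x₀` such that `f` is locally injective off `f⁻¹(L)`,
`L = {x 0 = x 1 = 0}`: there `f` is a winding map after a change of coordinates in the source.
-/

set_option autoImplicit false

open MeasureTheory Set

namespace MB

/-- Logarithmic polar coordinates in the plane of the coordinates `0, 1`, identity in the others:
`(s, θ, y) ↦ (e^s cos θ, e^s sin θ, y)`. -/
noncomputable def pc {n : ℕ} (q : E (n + 2)) : E (n + 2) :=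
  WithLp.toLp 2 fun i =>
    if i = 0 then Real.exp (q 0) * Real.cos (q 1)
    else if i = 1 then Real.exp (q 0) * Real.sin (q 1)
    else q i

/-- Shift of the angle by `2πj`. -/
noncomputable def sh {n : ℕ} (j : ℤ) (q : E (n + 2)) : E (n + 2) :=
  WithLp.toLp 2 fun i => if i = 1 then q 1 + 2 * Real.pi * j else q i

/-- Multiplication of the angle by `k`. -/
noncomputable def sk {n : ℕ} (k : ℕ) (q : E (n + 2)) : E (n + 2) :=
  WithLp.toLp 2 fun i => if i = 1 then k * q 1 else q i

/-- The part of the source of `pc` over the ball of centre `p` and radius `r`. -/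
def Ut {n : ℕ} (p : E (n + 2)) (r : ℝ) : Set (E (n + 2)) := {q | pc q ∈ Metric.ball p r}

/-- The ball without the axis. -/
def Bp {n : ℕ} (p : E (n + 2)) (r : ℝ) : Set (E (n + 2)) := {y | y ∈ Metric.ball p r ∧ ¬ ax y}

/-- `U` is a normal domain of `f` over the ball of centre `p` and radius `r`. -/
structure Nrm {n : ℕ} (f : E (n + 2) → E (n + 2)) (U : Set (E (n + 2))) (p : E (n + 2)) (r : ℝ) :
    Prop where
  opn : IsOpen U
  conn : IsPreconnected U
  cont : ContinuousOn f U
  maps : Set.MapsTo f U (Metric.ball p r)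
  prop : ∀ K ⊆ Metric.ball p r, IsCompact K → IsCompact (U ∩ f ⁻¹' K)
  disc : ∀ x ∈ U, ∃ W ∈ nhds x, ∀ z ∈ W, f z = f x → z = x
  opnm : ∀ O ⊆ U, IsOpen O → IsOpen (f '' O)
  linj : ∀ x ∈ U, ¬ ax (f x) → ∃ W ∈ nhds x, Set.InjOn f W

end MB
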