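import Pool.Agent.H16.MB.Win
import Pool.Agent.H16.MT.TDefs

/-!
Row Drv (MP_c844e7, about 130 lines).  From the local model to the data `Dat`.

PROOF.  `s = r/(2R) > 0`; `G' y = G (p + s • y)` for `y ∈ ball 0 R` and `0` otherwise; `p + s • y ∈ ball p r`.  `meas`: continuous on the open ball, constant elsewhere (`ContinuousOn.measurable_piecewise` or
`Measurable.ite` of a restriction).  `cont`, `inj`: composition with the similarity.
Let `y ∈ ball 0 R`, `¬ ax y`; `Y = p + s • y`, `¬ ax Y` because `ax p`, `s ≠ 0`; `x = G Y`, `A = fderiv ℝ f x` invertible (`det ≠ 0`: `ContinuousLinearMap.toContinuousLinearEquivOfDetNeZero`), `B = fderiv ℝ (winding k) Y`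
(`winding_diff`).  CLAIM: `HasFDerivAt G (A⁻¹ ∘ B) Y`.  `f (G Y') - f (G Y) = winding k Y' - winding k Y` for `Y'` near `Y`.  `G` is continuous at `Y`, `f` has derivative `A` at `x`:
`f (G Y') - f x - A (G Y' - x) = o(‖G Y' - x‖)`.  So `G Y' - x = A⁻¹ (winding k Y' - winding k Y) + o(‖G Y' - x‖)`, which first gives `‖G Y' - x‖ ≤ C ‖Y' - Y‖` near `Y`, and then the claim
(compare the proof of `HasFDerivAt.of_local_left_inverse` in Mathlib; `HasFDerivAt.isLittleO`, `Asymptotics.IsLittleO`, `isBigO_sub_of_…`).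
So `G'` has the derivative `s • (A⁻¹ ∘ B)` at `y` (`diff`).  `bnd`: let `⟪h, th y⟫ = 0`; `th Y = s • th y` (as `ax p`), so `⟪h, th Y⟫ = 0` and `‖B h‖ = ‖h‖` (`winding_norm`).  Let `w = A⁻¹ (B h)`.  `hK` at `x` (homogeneous
form: `|det A| * ‖w‖^(n+2) ≤ K * ‖A w‖^(n+2)`, from the unit vector `w/‖w‖`; trivial for `w = 0`) gives `|det A| ‖w‖^(n+2) ≤ K ‖h‖^(n+2)`.  `|det (s • A⁻¹ B)| = s^(n+2) * k / |det A|` (`winding_det`,
`ContinuousLinearMap.det_…`: go through `LinearMap.det_comp`, `LinearMap.det_smul`), so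
`‖s w‖^(n+2) = s^(n+2) ‖w‖^(n+2) ≤ s^(n+2) K ‖h‖^(n+2)/|det A| = (K/k) |det DG'| ‖h‖^(n+2)`.
-/

set_option autoImplicit false

open MeasureTheory Set

namespace MB

variable {n k : ℕ}

private lemma Drv_th {n : ℕ} (p y : E (n + 2)) (s : ℝ) (hp : ax p) :
    th (p + s • y) = s • th y := by
  ext i
  obtain ⟨h0, h1⟩ := hp
  have e : ∀ x : E (n + 2), th x i = if i = 0 then -x 1 else if i = 1 then x 0 else 0 :=
    fun x => rfl
  have e2 : (s • th y) i = s * th y i := rfl
  have e3 : ∀ j, (p + s • y) j = p j + s * y j := fun j => rfl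
  rw [e2, e, e, e3, e3, h0, h1]
  by_cases hi : i = 0
  · rw [if_pos hi, if_pos hi]
    ring
  · rw [if_neg hi, if_neg hi]
    by_cases hi1 : i = 1
    · rw [if_pos hi1, if_pos hi1]
      ring
    · rw [if_neg hi1, if_neg hi1]
      ring

private lemma Drv_ax {n : ℕ} (p y : E (n + 2)) {s : ℝ} (hs : 0 < s) (hp : ax p) (hy : ¬ ax y) :
    ¬ ax (p + s • y) := by
  rintro ⟨h0, h1⟩
  apply hy
  have e3 : ∀ j, (p + s • y) j = p j + s * y j := fun j => rfl
  rw [e3, hp.1, zero_add] at h0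
  rw [e3, hp.2, zero_add] at h1
  exact ⟨(mul_eq_zero.1 h0).resolve_left hs.ne', (mul_eq_zero.1 h1).resolve_left hs.ne'⟩

/-- The estimate at one point. -/
private lemma Drv_alg {n k : ℕ} (hk : 1 ≤ k) (A B D : E (n + 2) →L[ℝ] E (n + 2)) {s K : ℝ}
    (hs : 0 < s) (hA : A.det ≠ 0) (hAD : A ∘L D = s • B) (hB : |B.det| = k)
    (hK : ∀ h : E (n + 2), ‖h‖ = 1 → |A.det| ≤ K * ‖A h‖ ^ (n + 2)) (h : E (n + 2))
    (hBh : ‖B h‖ = ‖h‖) :
    ‖D h‖ ^ (n + 2) ≤ K / k * |D.det| * ‖h‖ ^ (n + 2) := by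
  have hk0 : (0 : ℝ) < k := by exact_mod_cast hk
  have hhom : ∀ w : E (n + 2), |A.det| * ‖w‖ ^ (n + 2) ≤ K * ‖A w‖ ^ (n + 2) := by
    intro w
    by_cases hw : w = 0
    · rw [hw, map_zero, norm_zero, zero_pow (by omega), mul_zero, mul_zero]
    · have hn : 0 < ‖w‖ := norm_pos_iff.2 hw
      have h1 := hK (‖w‖⁻¹ • w) (by rw [norm_smul, norm_inv, norm_norm, inv_mul_cancel₀ hn.ne'])
      rw [map_smul, norm_smul, norm_inv, norm_norm, mul_pow] at h1
      have h2 := mul_le_mul_of_nonneg_right h1 (pow_nonneg hn.le (n + 2))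
      have h3 : K * (‖w‖⁻¹ ^ (n + 2) * ‖A w‖ ^ (n + 2)) * ‖w‖ ^ (n + 2) =
          K * ‖A w‖ ^ (n + 2) * (‖w‖⁻¹ * ‖w‖) ^ (n + 2) := by
        rw [mul_pow]
        ring
      rw [h3, inv_mul_cancel₀ hn.ne', one_pow, mul_one] at h2
      exact h2
  have hdet : A.det * D.det = s ^ (n + 2) * B.det := by
    have h1 : (A ∘L D).det = A.det * D.det := LinearMap.det_comp _ _
    have h2 : (s • B).det = s ^ Module.finrank ℝ (E (n + 2)) * B.det := LinearMap.det_smul _ _
    rw [finrank_euclideanSpace, Fintype.card_fin] at h2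
    rw [← h1, hAD, h2]
  have habs : |A.det| * |D.det| = s ^ (n + 2) * k := by
    rw [← abs_mul, hdet, abs_mul, hB, abs_of_pos (pow_pos hs _)]
  have hpos : 0 < |A.det| := abs_pos.2 hA
  have hAw : A (D h) = s • B h := by
    have := congrArg (fun L : E (n + 2) →L[ℝ] E (n + 2) => L h) hAD
    simpa using this
  have h1 := hhom (D h)
  rw [hAw, norm_smul, hBh, Real.norm_eq_abs, abs_of_pos hs, mul_pow] at h1
  refine le_of_mul_le_mul_left ?_ hpos
  calc |A.det| * ‖D h‖ ^ (n + 2) ≤ K * (s ^ (n + 2) * ‖h‖ ^ (n + 2)) := h1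
    _ = K / k * (s ^ (n + 2) * k) * ‖h‖ ^ (n + 2) := by
        field_simp
    _ = |A.det| * (K / k * |D.det| * ‖h‖ ^ (n + 2)) := by
        rw [← habs]
        ring

theorem dat_of_model {f : E (n + 2) → E (n + 2)} {p : E (n + 2)} {r K : ℝ} (hk : 1 ≤ k)
    (hp : ax p) (hr : 0 < r) {G : E (n + 2) → E (n + 2)} (hG : ContinuousOn G (Metric.ball p r))
    (hi : InjOn G (Metric.ball p r)) (hf : ∀ y ∈ Metric.ball p r, f (G y) = winding k y)
    (hd : ∀ y ∈ Bp p r, DifferentiableAt ℝ f (G y) ∧ (fderiv ℝ f (G y)).det ≠ 0 ∧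
      ∀ h : E (n + 2), ‖h‖ = 1 →
        |(fderiv ℝ f (G y)).det| ≤ K * ‖fderiv ℝ f (G y) h‖ ^ (n + 2)) (R : ℝ) (hR : 0 < R) :
    ∃ G' : E (n + 2) → E (n + 2), Dat (K / k) R G' := by
  classical
  obtain ⟨s, hsd⟩ : ∃ s, s = r / (2 * R) := ⟨_, rfl⟩
  have hs : 0 < s := by
    rw [hsd]
    positivity
  have hsR : s * R < r := by
    rw [hsd]
    have : r / (2 * R) * R = r / 2 := by
      field_simp
    rw [this]
    linarith
  have hball : ∀ y ∈ Metric.ball (0 : E (n + 2)) R, p + s • y ∈ Metric.ball p r := by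
    intro y hy
    rw [mem_ball_zero_iff] at hy
    rw [Metric.mem_ball, dist_eq_norm, add_sub_cancel_left, norm_smul, Real.norm_eq_abs,
      abs_of_pos hs]
    exact (mul_lt_mul_of_pos_left hy hs).trans hsR
  have hcl : Continuous (fun y : E (n + 2) => p + s • y) := by fun_prop
  have hGc : ContinuousOn (fun y : E (n + 2) => G (p + s • y)) (Metric.ball 0 R) :=
    hG.comp hcl.continuousOn hball
  obtain ⟨G', hG'⟩ : ∃ G' : E (n + 2) → E (n + 2), G' =
    (Metric.ball (0 : E (n + 2)) R).piecewise (fun y => G (p + s • y)) (fun _ => 0) := ⟨_, rfl⟩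
  have hev : ∀ y ∈ Metric.ball (0 : E (n + 2)) R, G' y = G (p + s • y) := by
    intro y hy
    rw [hG', Set.piecewise_eq_of_mem _ _ _ hy]
  have hfd : ∀ y ∈ Metric.ball (0 : E (n + 2)) R, ¬ ax y →
      ∃ D : E (n + 2) →L[ℝ] E (n + 2), HasFDerivAt G' D y ∧
        fderiv ℝ f (G (p + s • y)) ∘L D = s • fderiv ℝ (winding k) (p + s • y) := by
    intro y hy hay
    have hY := Drv_ax p y hs hp hay
    have hYb := hball y hy
    obtain ⟨hdf, hdet, -⟩ := hd (p + s • y) ⟨hYb, hY⟩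
    obtain ⟨A, hA⟩ : ∃ A, A = fderiv ℝ f (G (p + s • y)) := ⟨_, rfl⟩
    obtain ⟨B, hB⟩ : ∃ B, B = fderiv ℝ (winding (n := n) k) (p + s • y) := ⟨_, rfl⟩
    rw [← hA] at hdet
    have hfA : HasFDerivAt f A (G (p + s • y)) := hA ▸ hdf.hasFDerivAt
    have hfB : HasFDerivAt (winding (n := n) k) B (p + s • y) :=
      hB ▸ (winding_diff hk _ hY).hasFDerivAt
    obtain ⟨e, he⟩ : ∃ e, e = A.toContinuousLinearEquivOfDetNeZero hdet := ⟨_, rfl⟩
    have hco : (e : E (n + 2) →L[ℝ] E (n + 2)) = A := by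
      rw [he]
      exact ContinuousLinearMap.coe_toContinuousLinearEquivOfDetNeZero A hdet
    have hae : ∀ w, A (e.symm w) = w := by
      intro w
      have h1 : e (e.symm w) = w := e.apply_symm_apply w
      rw [← hco]
      exact h1
    have hea : ∀ w, e.symm (A w) = w := by
      intro w
      have h1 : e.symm (e w) = w := e.symm_apply_apply w
      rw [← hco]
      exact h1
    have hgc : ContinuousAt G (p + s • y) := hG.continuousAt (Metric.isOpen_ball.mem_nhds hYb)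
    have hcomp : f ∘ G =ᶠ[nhds (p + s • y)] winding k := by
      filter_upwards [Metric.isOpen_ball.mem_nhds hYb] with z hz
      exact hf z hz
    have hGd : HasFDerivAt G ((e.symm : E (n + 2) →L[ℝ] E (n + 2)) ∘L B) (p + s • y) :=
      HasFDerivAt.of_comp_of_leftInverse hgc hfA hfB hcomp (fun w => hea w)
    have hlin : HasFDerivAt (fun y : E (n + 2) => p + s • y)
        (s • ContinuousLinearMap.id ℝ (E (n + 2))) y :=
      ((hasFDerivAt_id y).const_smul s).const_add p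
    have hc2 := hGd.comp y hlin
    refine ⟨_, hc2.congr_of_eventuallyEq ?_, ?_⟩
    · filter_upwards [Metric.isOpen_ball.mem_nhds hy] with z hz
      exact hev z hz
    · rw [← hA, ← hB]
      ext1 h
      simp only [ContinuousLinearMap.comp_apply, smul_apply,
        ContinuousLinearMap.id_apply, map_smul]
      congr 1
      exact hae _
  refine ⟨G', ?_, ?_, ?_, ?_, ?_⟩
  · rw [hG']
    exact ContinuousOn.measurable_piecewise hGc continuousOn_const measurableSet_ball
  · exact hGc.congr hev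
  · intro y hy z hz hyz
    rw [hev y hy, hev z hz] at hyz
    have h1 := hi (hball y hy) (hball z hz) hyz
    have h2 := add_left_cancel h1
    exact smul_right_injective _ hs.ne' h2
  · intro y hy hay
    obtain ⟨D, hD, -⟩ := hfd y hy hay
    exact hD.differentiableAt
  · intro y hy hay h hh
    obtain ⟨D, hD, hAD⟩ := hfd y hy hay
    have hY := Drv_ax p y hs hp hay
    obtain ⟨-, hdet, hK⟩ := hd (p + s • y) ⟨hball y hy, hY⟩
    rw [hD.fderiv]
    refine Drv_alg hk _ _ D hs hdet hAD (winding_det hk _ hY) hK h ?_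
    refine winding_norm hk _ h hY ?_
    rw [Drv_th p y s hp, inner_smul_right, hh, mul_zero]

end MB
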