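import Pool.Agent.H16.MT.PcB
import Pool.Agent.H16.MT.Wda

/-!
Row Ext (MP_c844e7, about 190 lines).  Extension across the axis.

PROOF.  Let `q ∈ ball p r`, `ax q`.
(1) For `0 < δ`, `Bp q δ` is preconnected: it is the image of the convex set `Ut q δ` under the continuous map `pc` (`pc_surj`, `pc_not_ax`, `pc_cont`, `Ut_convex`).
(2) The fibre `Φ = U ∩ f ⁻¹' {q}` is finite (compact by `h.prop`, isolated points by `h.disc`).
(3) CLAIM: `∃ x ∈ U, Tendsto G (𝓝[Bp p r] q) (𝓝 x)`, and `f x = q`.  Take a sequence `y_m ∈ Bp p r`, `y_m → q` (for instance `q + (1/(m+1)) • e₀` for `m` large): `f (G y_m) = winding k y_m → winding k q = q` (`winding_cont`,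
`winding_of_ax`).  Let `K = closedBall q δ₀ ⊆ ball p r`; `U ∩ f ⁻¹' K` is compact and contains `G y_m` for `m` large (`winding_dist`, with centre `q`: `‖winding k y - q‖ = ‖y - q‖`), so a subsequence of `G y_m` converges to some
`x ∈ U ∩ f ⁻¹' K`, and `f x = q` by continuity.  Now let `W` be an open neighbourhood of `x`; shrink it: choose `η > 0` with `closedBall x η ⊆ W ∩ U` and no point of `Φ` except `x` in `closedBall x η` (`h.disc x`).
`T = sphere x η` is compact, `f ≠ q` on `T` (points of `T` are in `U`, not in `Φ`), so `‖f z - q‖ ≥ δ₁ > 0` on `T`.  For `δ ≤ min δ₀ δ₁`: `G '' Bp q δ` is connected (by (1), `Bp q δ ⊆ Bp p r`), does not meet `T` because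
`‖f (G y) - q‖ = ‖winding k y - q‖ = ‖y - q‖ < δ₁`, and meets `ball x η` (subsequence); hence `G '' Bp q δ ⊆ ball x η` (`IsPreconnected.subset_left_of_subset_union` with the open sets `ball x η` and
`(closedBall x η)ᶜ`).  So `G y ∈ W` for `y ∈ Bp p r` near `q`.
(4) At points of `Bp p r` (open set) `G` is continuous, so it has a limit too.  `G' = extendFrom (Bp p r) G`: `continuousOn_extendFrom` with `ball p r ⊆ closure (Bp p r)` gives continuity on the ball; `G' = G` on `Bp p r`
(`extendFrom_eq`), `G' q = x` for axis points.  `f (G' y) = winding k y` holds on `Bp p r`, and at axis points `f x = q = winding k q`.  `G' y ∈ U` always.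
(5) injectivity: `G' y = G' y'` gives `winding k y = winding k y'`; if `ax y`, then `ax y'` (`ax_winding`) and `y = winding k y = winding k y' = y'`; if neither is on the axis: injectivity of `G`.
-/

set_option autoImplicit false

open MeasureTheory Set

namespace MB

variable {n k : ℕ}

open Filter Topology in
private theorem Ext_conn {q : E (n + 2)} (hq : ax q) (δ : ℝ) : IsPreconnected (Bp q δ) := by
  have h1 : Bp q δ = pc '' Ut q δ := by
    ext y
    constructor
    · rintro ⟨hy, hax⟩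
      obtain ⟨u, rfl⟩ := pc_surj y hax
      exact ⟨u, hy, rfl⟩
    · rintro ⟨u, hu, rfl⟩
      exact ⟨hu, pc_not_ax u⟩
  rw [h1]
  exact (Ut_convex hq δ).isPreconnected.image _ pc_cont.continuousOn

private theorem Ext_closure {p : E (n + 2)} {r : ℝ} :
    Metric.ball p r ⊆ closure (Bp p r) := by
  intro y hy
  by_cases hax : ax y
  · rw [Metric.mem_closure_iff]
    intro ε hε
    have hyr : dist y p < r := hy
    obtain ⟨t, ht⟩ : ∃ t : ℝ, t = min ε (r - dist y p) / 2 := ⟨_, rfl⟩
    have hm : 0 < min ε (r - dist y p) := lt_min hε (by linarith)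
    have ht0 : 0 < t := by rw [ht]; linarith
    have ht1 : t < ε := by
      have := min_le_left ε (r - dist y p)
      rw [ht]; linarith
    have ht2 : t < r - dist y p := by
      have := min_le_right ε (r - dist y p)
      rw [ht]; linarith
    have hd : dist y (y + t • EuclideanSpace.single (0 : Fin (n + 2)) (1 : ℝ)) = t := by
      rw [dist_self_add_right, norm_smul]
      simp [abs_of_pos ht0]
    refine ⟨y + t • EuclideanSpace.single (0 : Fin (n + 2)) (1 : ℝ), ⟨?_, ?_⟩, ?_⟩
    · rw [Metric.mem_ball]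
      calc dist (y + t • EuclideanSpace.single (0 : Fin (n + 2)) (1 : ℝ)) p ≤
            dist (y + t • EuclideanSpace.single (0 : Fin (n + 2)) (1 : ℝ)) y + dist y p :=
            dist_triangle _ _ _
        _ < r := by rw [dist_comm _ y, hd]; linarith
    · intro h
      have h0 := h.1
      have hy0 := hax.1
      simp [hy0] at h0
      exact ht0.ne' h0
    · rw [hd]; exact ht1
  · exact subset_closure ⟨hy, hax⟩

open Filter Topology in
private theorem Ext_lim {f : E (n + 2) → E (n + 2)} {U : Set (E (n + 2))} {p : E (n + 2)} {r : ℝ}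
    (hk : 1 ≤ k) (h : Nrm f U p r) {G : E (n + 2) → E (n + 2)}
    (hG : ContinuousOn G (Bp p r))
    (hf : ∀ y ∈ Bp p r, G y ∈ U ∧ f (G y) = winding k y) {q : E (n + 2)}
    (hqb : q ∈ Metric.ball p r) (hq : ax q) :
    ∃ x ∈ U, f x = q ∧ Tendsto G (𝓝[Bp p r] q) (𝓝 x) := by
  have hne : NeBot (𝓝[Bp p r] q) := mem_closure_iff_nhdsWithin_neBot.1 (Ext_closure hqb)
  obtain ⟨δ₀, hδ₀, hsub⟩ := Metric.nhds_basis_closedBall.mem_iff.1 (Metric.isOpen_ball.mem_nhds hqb)
  have hcomp := h.prop _ hsub (isCompact_closedBall q δ₀)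
  have hball : ∀ δ : ℝ, 0 < δ → ∀ᶠ y in 𝓝[Bp p r] q, y ∈ Bp p r ∧ y ∈ Metric.ball q δ := by
    intro δ hδ
    filter_upwards [self_mem_nhdsWithin, mem_nhdsWithin_of_mem_nhds (Metric.ball_mem_nhds q hδ)]
      with y hy1 hy2
    exact ⟨hy1, hy2⟩
  have hev : ∀ᶠ y in 𝓝[Bp p r] q, G y ∈ U ∩ f ⁻¹' Metric.closedBall q δ₀ := by
    filter_upwards [hball δ₀ hδ₀] with y hy
    refine ⟨(hf y hy.1).1, ?_⟩
    change f (G y) ∈ Metric.closedBall q δ₀
    rw [(hf y hy.1).2, Metric.mem_closedBall, dist_eq_norm, winding_dist hk hq, ← dist_eq_norm]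
    exact (Metric.mem_ball.1 hy.2).le
  obtain ⟨x, ⟨hxU, hxK⟩, hcl⟩ := hcomp.exists_mapClusterPt (u := G)
    (Filter.tendsto_principal.2 hev)
  have hUx : U ∈ 𝓝 x := h.opn.mem_nhds hxU
  have hfx : f x = q := by
    have h1 : MapClusterPt (f x) (𝓝[Bp p r] q) (f ∘ G) :=
      hcl.continuousAt_comp (h.cont.continuousAt hUx)
    have h2 : Tendsto (f ∘ G) (𝓝[Bp p r] q) (𝓝 q) := by
      have h3 : Tendsto (winding k) (𝓝[Bp p r] q) (𝓝 q) := by
        have h4 := (winding_cont (n := n) hk).tendsto q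
        rw [winding_of_ax hk q hq] at h4
        exact h4.mono_left nhdsWithin_le_nhds
      refine h3.congr' ?_
      filter_upwards [self_mem_nhdsWithin] with y hy
      exact (hf y hy).2.symm
    have h5 : ClusterPt (f x) (𝓝 q) := ClusterPt.mono h1 h2
    by_contra hne'
    have h6 := disjoint_nhds_nhds.2 hne'
    exact h5.ne (disjoint_iff.1 h6)
  refine ⟨x, hxU, hfx, ?_⟩
  rw [tendsto_def]
  intro W hW
  obtain ⟨W₀, hW₀, hdisc⟩ := h.disc x hxU
  obtain ⟨η, hη, hηs⟩ := Metric.nhds_basis_closedBall.mem_iff.1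
    (inter_mem (inter_mem hW hUx) hW₀)
  have hT : ∀ z ∈ Metric.sphere x η, 0 < dist (f z) q := by
    intro z hz
    rw [dist_pos]
    intro h7
    have hz' := hηs (Metric.sphere_subset_closedBall hz)
    have h8 := hdisc z hz'.2 (by rw [h7, hfx])
    rw [h8, Metric.mem_sphere, dist_self] at hz
    exact hη.ne hz
  have hcT : ContinuousOn (fun z => dist (f z) q) (Metric.sphere x η) := by
    have hc : ContinuousOn f (Metric.sphere x η) := h.cont.mono fun z hz =>
      (hηs (Metric.sphere_subset_closedBall hz)).1.2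
    fun_prop
  obtain ⟨δ₁, hδ₁, hmin⟩ := (isCompact_sphere x η).exists_forall_le' hcT hT
  obtain ⟨δ, hδ⟩ : ∃ δ, δ = min δ₀ δ₁ := ⟨_, rfl⟩
  have hδ0 : 0 < δ := by rw [hδ]; exact lt_min hδ₀ hδ₁
  have hsubB : Bp q δ ⊆ Bp p r := by
    rintro y ⟨hy, hy'⟩
    refine ⟨hsub ?_, hy'⟩
    rw [Metric.mem_closedBall]
    exact (Metric.mem_ball.1 hy).le.trans (by rw [hδ]; exact min_le_left _ _)
  have hpre : IsPreconnected (G '' Bp q δ) := (Ext_conn hq δ).image _ (hG.mono hsubB)
  have huni : G '' Bp q δ ⊆ Metric.ball x η ∪ (Metric.closedBall x η)ᶜ := by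
    rintro _ ⟨y, hy, rfl⟩
    by_contra hcon
    rw [mem_union, not_or, Metric.mem_ball, not_lt, mem_compl_iff, not_not,
      Metric.mem_closedBall] at hcon
    have hs : G y ∈ Metric.sphere x η := le_antisymm hcon.2 hcon.1
    have h9 := hmin _ hs
    rw [(hf y (hsubB hy)).2, dist_eq_norm, winding_dist hk hq, ← dist_eq_norm] at h9
    have h10 : dist y q < δ := hy.1
    have h11 : δ ≤ δ₁ := by rw [hδ]; exact min_le_right _ _
    linarith
  have hev2 : ∀ᶠ y in 𝓝[Bp p r] q, y ∈ Bp q δ := by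
    filter_upwards [hball δ hδ0] with y hy
    exact ⟨hy.2, hy.1.2⟩
  have hmeet : (G '' Bp q δ ∩ Metric.ball x η).Nonempty := by
    have hfr : ∃ᶠ y in 𝓝[Bp p r] q, G y ∈ Metric.ball x η :=
      mapClusterPt_iff_frequently.1 hcl _ (Metric.ball_mem_nhds x hη)
    obtain ⟨y, hy1, hy2⟩ := (hfr.and_eventually hev2).exists
    exact ⟨G y, ⟨y, hy2, rfl⟩, hy1⟩
  have hfin := hpre.subset_left_of_subset_union Metric.isOpen_ball
    Metric.isClosed_closedBall.isOpen_compl
    (Set.disjoint_left.2 fun z hz1 hz2 => hz2 (Metric.ball_subset_closedBall hz1)) huni hmeet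
  filter_upwards [hev2] with y hy
  exact (hηs (Metric.ball_subset_closedBall (hfin ⟨y, hy, rfl⟩))).1.1

theorem exists_ext {f : E (n + 2) → E (n + 2)} {U : Set (E (n + 2))} {p : E (n + 2)} {r : ℝ}
    (hk : 1 ≤ k) (hp : ax p) (h : Nrm f U p r) {G : E (n + 2) → E (n + 2)}
    (hG : ContinuousOn G (Bp p r)) (hi : InjOn G (Bp p r))
    (hf : ∀ y ∈ Bp p r, G y ∈ U ∧ f (G y) = winding k y) :
    ∃ G' : E (n + 2) → E (n + 2), ContinuousOn G' (Metric.ball p r) ∧
      InjOn G' (Metric.ball p r) ∧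
      ∀ y ∈ Metric.ball p r, G' y ∈ U ∧ f (G' y) = winding k y := by
  have hon : ∀ y ∈ Bp p r, extendFrom (Bp p r) G y = G y := fun y hy =>
    extendFrom_eq (subset_closure hy) (hG y hy)
  have hprop : ∀ y ∈ Metric.ball p r,
      extendFrom (Bp p r) G y ∈ U ∧ f (extendFrom (Bp p r) G y) = winding k y := by
    intro y hy
    by_cases hax : ax y
    · obtain ⟨x, hxU, hfx, hlim⟩ := Ext_lim hk h hG hf hy hax
      rw [extendFrom_eq (Ext_closure hy) hlim, winding_of_ax hk y hax]
      exact ⟨hxU, hfx⟩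
    · rw [hon y ⟨hy, hax⟩]
      exact hf y ⟨hy, hax⟩
  refine ⟨extendFrom (Bp p r) G, ?_, ?_, hprop⟩
  · refine continuousOn_extendFrom Ext_closure fun y hy => ?_
    by_cases hax : ax y
    · obtain ⟨x, -, -, hlim⟩ := Ext_lim hk h hG hf hy hax
      exact ⟨x, hlim⟩
    · exact ⟨G y, hG y ⟨hy, hax⟩⟩
  · intro y hy y' hy' he
    have hw : winding k y = winding k y' := by
      rw [← (hprop y hy).2, ← (hprop y' hy').2, he]
    by_cases hax : ax y
    · have hax' : ax y' := by
        rw [← ax_winding hk, ← hw, ax_winding hk]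
        exact hax
      rw [winding_of_ax hk y hax, winding_of_ax hk y' hax'] at hw
      exact hw
    · have hax' : ¬ ax y' := by
        rw [← ax_winding hk, ← hw, ax_winding hk]
        exact hax
      rw [hon y ⟨hy, hax⟩, hon y' ⟨hy', hax'⟩] at he
      exact hi ⟨hy, hax⟩ ⟨hy', hax'⟩ he

end MB
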