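import Pool.Agent.H16.MT.TDefs

/-!
Row Nor (MP_c844e7, about 130 lines).  Existence of a normal domain.

PROOF.  Let `p = f x₀`.  By `hdisc` and openness of `D` choose `ρ > 0` with `closedBall x₀ ρ ⊆ D` and `f z ≠ p` for `z ∈ closedBall x₀ ρ`, `z ≠ x₀`.  `S = sphere x₀ ρ` is compact, `‖f z - p‖ > 0` on it, so there is
`r > 0` with `r ≤ ‖f z - p‖` on `S`.  `O = ball x₀ ρ ∩ f ⁻¹' ball p r` is open (`ContinuousOn.isOpen_inter_preimage`), contains `x₀`.  `U = connectedComponentIn O x₀`: open (`IsOpen.connectedComponentIn`, locally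
connected space), preconnected, `x₀ ∈ U ⊆ O`.
KEY: if `x ∈ closure U` and `f x ∈ ball p r`, then `x ∈ U`: `closure U ⊆ closedBall x₀ ρ`; `x ∉ S` because `‖f x - p‖ < r`; so `x ∈ O`; `U ∪ {x}` is preconnected (`IsPreconnected.subset_closure`), contained in `O`, contains
`x₀`, so `x ∈ U` (`IsPreconnected.subset_connectedComponentIn`).
`prop`: `U ∩ f ⁻¹' K = closure U ∩ f ⁻¹' K` by KEY; `closure U` is compact, contained in `D`, `f` continuous on it, `K` closed: it is a closed subset of a compact set (`ContinuousOn.preimage_isClosed_of_isClosed`).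
`disc`, `opnm`, `linj`: restrict the hypotheses on `D`.
-/

set_option autoImplicit false

open MeasureTheory Set

namespace MB

variable {n : ℕ}

theorem exists_nrm {D : Set (E (n + 2))} {f : E (n + 2) → E (n + 2)} (hD : IsOpen D)
    (hc : ContinuousOn f D) (ho : ∀ O ⊆ D, IsOpen O → IsOpen (f '' O))
    (hdisc : ∀ x ∈ D, ∃ W ∈ nhds x, ∀ z ∈ W, f z = f x → z = x)
    (hl : ∀ x ∈ D, ¬ ax (f x) → ∃ W ∈ nhds x, InjOn f W) {x₀ : E (n + 2)} (hx₀ : x₀ ∈ D) :
    ∃ (U : Set (E (n + 2))) (r : ℝ), 0 < r ∧ x₀ ∈ U ∧ U ⊆ D ∧ Nrm f U (f x₀) r := by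
  obtain ⟨W, hW, hWi⟩ := hdisc x₀ hx₀
  obtain ⟨ρ, hρ, hsub⟩ := Metric.nhds_basis_closedBall.mem_iff.1
    (Filter.inter_mem hW (hD.mem_nhds hx₀))
  have hBD : Metric.closedBall x₀ ρ ⊆ D := fun z hz => (hsub hz).2
  obtain ⟨r, hr, hS⟩ : ∃ r : ℝ, 0 < r ∧ ∀ z ∈ Metric.sphere x₀ ρ, r ≤ ‖f z - f x₀‖ := by
    rcases (Metric.sphere x₀ ρ).eq_empty_or_nonempty with h | h
    · exact ⟨1, one_pos, fun z hz => by rw [h] at hz; exact absurd hz (notMem_empty _)⟩
    · have hcn : ContinuousOn (fun z => ‖f z - f x₀‖) (Metric.sphere x₀ ρ) :=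
        ((hc.mono (Metric.sphere_subset_closedBall.trans hBD)).sub continuousOn_const).norm
      obtain ⟨z₀, hz₀, hmin⟩ := (isCompact_sphere x₀ ρ).exists_isMinOn h hcn
      have hle : ∀ z ∈ Metric.sphere x₀ ρ, ‖f z₀ - f x₀‖ ≤ ‖f z - f x₀‖ := isMinOn_iff.1 hmin
      have hps : 0 < ‖f z₀ - f x₀‖ := by
        rw [norm_pos_iff, sub_ne_zero]
        intro he
        have h2 := hWi z₀ (hsub (Metric.sphere_subset_closedBall hz₀)).1 he
        rw [h2, Metric.mem_sphere, dist_self] at hz₀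
        exact hρ.ne hz₀
      exact ⟨‖f z₀ - f x₀‖, hps, hle⟩
  set O : Set (E (n + 2)) := Metric.ball x₀ ρ ∩ f ⁻¹' Metric.ball (f x₀) r with hO
  have hOo : IsOpen O :=
    (hc.mono (Metric.ball_subset_closedBall.trans hBD)).isOpen_inter_preimage Metric.isOpen_ball
      Metric.isOpen_ball
  have hxO : x₀ ∈ O := mem_inter (Metric.mem_ball_self hρ)
    (mem_preimage.2 (Metric.mem_ball_self hr))
  set U := connectedComponentIn O x₀ with hU
  have hUO : U ⊆ O := connectedComponentIn_subset O x₀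
  have hUo : IsOpen U := hOo.connectedComponentIn
  have hUc : IsPreconnected U := isPreconnected_connectedComponentIn
  have hxU : x₀ ∈ U := mem_connectedComponentIn hxO
  have hUb : U ⊆ Metric.ball x₀ ρ := fun z hz => (hUO hz).1
  have hUD : U ⊆ D := fun z hz => hBD (Metric.ball_subset_closedBall (hUb hz))
  have hclU : closure U ⊆ Metric.closedBall x₀ ρ :=
    closure_minimal (hUb.trans Metric.ball_subset_closedBall) Metric.isClosed_closedBall
  have key : ∀ x ∈ closure U, f x ∈ Metric.ball (f x₀) r → x ∈ U := by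
    intro x hx hfx
    have h1 : x ∈ Metric.closedBall x₀ ρ := hclU hx
    have h1' : x ∈ Metric.ball x₀ ρ := by
      rcases lt_or_eq_of_le (Metric.mem_closedBall.1 h1) with hlt | he
      · exact Metric.mem_ball.2 hlt
      · have h3 := hS x (Metric.mem_sphere.2 he)
        rw [Metric.mem_ball, dist_eq_norm] at hfx
        exact absurd hfx (not_lt.2 h3)
    have h2 : x ∈ O := mem_inter h1' (mem_preimage.2 hfx)
    have h3 : IsPreconnected (insert x U) :=
      hUc.subset_closure (subset_insert _ _) (insert_subset hx subset_closure)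
    exact h3.subset_connectedComponentIn (mem_insert_of_mem _ hxU) (insert_subset h2 hUO)
      (mem_insert _ _)
  have g1 : ContinuousOn f U := hc.mono hUD
  have g2 : Set.MapsTo f U (Metric.ball (f x₀) r) := fun z hz => (hUO hz).2
  have g3 : ∀ x ∈ U, ∃ W ∈ nhds x, ∀ z ∈ W, f z = f x → z = x := fun x hx => hdisc x (hUD hx)
  have g4 : ∀ O' ⊆ U, IsOpen O' → IsOpen (f '' O') :=
    fun O' hO' hO'o => ho O' (hO'.trans hUD) hO'o
  have g5 : ∀ x ∈ U, ¬ ax (f x) → ∃ W ∈ nhds x, Set.InjOn f W := fun x hx => hl x (hUD hx)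
  have g6 : ∀ K ⊆ Metric.ball (f x₀) r, IsCompact K → IsCompact (U ∩ f ⁻¹' K) := by
   intro K hK hKc
   have hcl : IsCompact (closure U) :=
     (isCompact_closedBall x₀ ρ).of_isClosed_subset isClosed_closure hclU
   have he : U ∩ f ⁻¹' K = closure U ∩ f ⁻¹' K := by
     ext z
     constructor
     · exact fun hz => ⟨subset_closure hz.1, hz.2⟩
     · exact fun hz => ⟨key z hz.1 (hK hz.2), hz.2⟩
   rw [he]
   have h4 : IsClosed (closure U ∩ f ⁻¹' K) :=
     (hc.mono (hclU.trans hBD)).preimage_isClosed_of_isClosed isClosed_closure hKc.isClosed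
   exact hcl.of_isClosed_subset h4 inter_subset_left
  exact ⟨U, r, hr, hxU, hUD, ⟨hUo, hUc, g1, g2, g6, g3, g4, g5⟩⟩

end MB
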