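import Pool.Agent.H16.MT.Inv
import Pool.Agent.H16.MT.Wda

/-!
Row Ont (MP_c844e7, about 100 lines).  The local model is onto the normal domain; number of preimages.

PROOF.
`model_onto`: `V = G '' ball p r` is open (`inv_dom`), nonempty, contained in `U`.  It is closed in `U`: let `x ∈ U`, `x ∈ closure V`, `G y_m → x`, `y_m ∈ ball p r`; `winding k y_m = f (G y_m) → f x` (continuity on the open set
`U`), `f x ∈ ball p r`, and `‖y_m - p‖ = ‖winding k y_m - p‖ → ‖f x - p‖ < r` (`winding_dist`), so for large `m` the `y_m` are in a closed ball of radius `< r` about `p` (compact): a subsequence converges to `y ∈ ball p r`, and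
`G y = x` by continuity.  As `U` is preconnected and `V ≠ ∅`: `U ⊆ V` (`IsPreconnected.subset_left_of_subset_union` with the open sets `V` and `U \ closure V`…; or `IsPreconnected.subset_of_closure_inter_subset`).
`card_fibre`: `U ∩ f ⁻¹' {z} ⊆ G '' {y | winding k y = z}` (`model_onto`), so its `encard` is `≤ k` (`Set.encard_image_le`, `winding_card`).
-/

set_option autoImplicit false

open MeasureTheory Set

namespace MB

variable {n k : ℕ}

theorem model_onto {f : E (n + 2) → E (n + 2)} {U : Set (E (n + 2))} {p : E (n + 2)} {r : ℝ}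
    (hk : 1 ≤ k) (hp : ax p) (hr : 0 < r) (h : Nrm f U p r) {G : E (n + 2) → E (n + 2)}
    (hG : ContinuousOn G (Metric.ball p r)) (hi : InjOn G (Metric.ball p r))
    (hf : ∀ y ∈ Metric.ball p r, G y ∈ U ∧ f (G y) = winding k y) :
    ∀ x ∈ U, ∃ y ∈ Metric.ball p r, G y = x := by
  have hV : IsOpen (G '' Metric.ball p r) := inv_dom G _ Metric.isOpen_ball hG hi
  have hVU : G '' Metric.ball p r ⊆ U := by
    rintro _ ⟨y, hy, rfl⟩
    exact (hf y hy).1
  have hcl : closure (G '' Metric.ball p r) ∩ U ⊆ G '' Metric.ball p r := by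
    rintro x ⟨hx, hxU⟩
    obtain ⟨v, hv, hlim⟩ := mem_closure_iff_seq_limit.1 hx
    choose y hy hyv using hv
    have hGl : Filter.Tendsto (fun m ↦ G (y m)) Filter.atTop (nhds x) := by
      simpa only [hyv] using hlim
    have hfx : ContinuousAt f x := h.cont.continuousAt (h.opn.mem_nhds hxU)
    have hwl : Filter.Tendsto (fun m ↦ winding k (y m)) Filter.atTop (nhds (f x)) := by
      have h1 := hfx.tendsto.comp hGl
      refine h1.congr fun m ↦ ?_
      exact (hf (y m) (hy m)).2
    have hfxb : f x ∈ Metric.ball p r := h.maps hxU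
    have hnl : Filter.Tendsto (fun m ↦ ‖y m - p‖) Filter.atTop (nhds ‖f x - p‖) := by
      have h1 := (hwl.sub_const p).norm
      refine h1.congr fun m ↦ ?_
      exact winding_dist hk hp (y m)
    have hlt : ‖f x - p‖ < r := by
      rw [Metric.mem_ball, dist_eq_norm] at hfxb
      exact hfxb
    obtain ⟨s, hs1, hs2⟩ := exists_between hlt
    have hev : ∀ᶠ m in Filter.atTop, y m ∈ Metric.closedBall p s := by
      filter_upwards [hnl.eventually (gt_mem_nhds hs1)] with m hm
      rw [Metric.mem_closedBall, dist_eq_norm]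
      exact le_of_lt hm
    obtain ⟨a, ha, φ, hφ, hφl⟩ := (isCompact_closedBall p s).tendsto_subseq'
      hev.frequently
    have hab : a ∈ Metric.ball p r := Metric.closedBall_subset_ball hs2 ha
    refine ⟨a, hab, ?_⟩
    have h2 : Filter.Tendsto (fun m ↦ G (y (φ m))) Filter.atTop (nhds (G a)) :=
      ((hG.continuousAt (Metric.isOpen_ball.mem_nhds hab)).tendsto.comp hφl)
    exact tendsto_nhds_unique h2 (hGl.comp hφ.tendsto_atTop)
  have hsub : U ⊆ G '' Metric.ball p r := by
    refine h.conn.subset_of_closure_inter_subset hV ?_ hcl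
    have hpb : p ∈ Metric.ball p r := Metric.mem_ball_self hr
    exact ⟨G p, (hf p hpb).1, ⟨p, hpb, rfl⟩⟩
  intro x hx
  obtain ⟨y, hy, hyx⟩ := hsub hx
  exact ⟨y, hy, hyx⟩

theorem card_fibre {f : E (n + 2) → E (n + 2)} {U : Set (E (n + 2))} {p : E (n + 2)} {r : ℝ}
    (hk : 1 ≤ k) (hp : ax p) (hr : 0 < r) (h : Nrm f U p r) {G : E (n + 2) → E (n + 2)}
    (hG : ContinuousOn G (Metric.ball p r)) (hi : InjOn G (Metric.ball p r))
    (hf : ∀ y ∈ Metric.ball p r, G y ∈ U ∧ f (G y) = winding k y) (z : E (n + 2)) :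
    (U ∩ f ⁻¹' {z}).encard ≤ k := by
  have hsub : U ∩ f ⁻¹' {z} ⊆ G '' {y | winding k y = z} := by
    rintro x ⟨hxU, hxz⟩
    obtain ⟨y, hy, hyx⟩ := model_onto hk hp hr h hG hi hf x hxU
    refine ⟨y, ?_, hyx⟩
    show winding k y = z
    rw [← (hf y hy).2, hyx]
    exact hxz
  exact (Set.encard_le_encard hsub).trans ((Set.encard_image_le _ _).trans (winding_card hk z))

end MB
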