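import Pool.Agent.H16.MT.StA

/-!
Row StB (MP_c844e7, about 90 lines).  Straightening a regular level set, with isometric derivative at the base point.

PROOF.  `A = fderiv ℝ H p`, `R`, `B` from `exists_adapted`.  Let `Q : E (n+2) →L[ℝ] E (n+2)` replace the coordinates `0, 1` by `0` (as in `MB.th`: `WithLp.toLp 2 fun i => if i = 0 then 0 else if i = 1 then 0 else x i`, a linear map,
continuous by `LinearMap.toContinuousLinearMap`).  `Φ x = Q (R (x - p)) + B (H x)`.  `ContDiffAt ℝ 1 Φ p` (composition and sum).  Derivative at `p`: `x ↦ Q (R x) + B (A x)`, which is `R x` (coordinates `0, 1`: `B (A x) i = R x i`,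
`Q _ i = 0`; coordinates `i.succ.succ`: `B _ = 0`).  `Φ x` has the coordinates `0, 1` of `B (H x)`, so `ax (Φ x)` iff `B (H x) 0 = B (H x) 1 = 0` iff `H x = 0` (last property of `B`; and `B 0 = 0`).
-/

set_option autoImplicit false

open MeasureTheory Set

namespace MB

/-- The coordinates `0, 1` are replaced by `0`. -/
private noncomputable def StB_Q (n : ℕ) : E (n + 2) →L[ℝ] E (n + 2) :=
  LinearMap.toContinuousLinearMap
    { toFun := fun x => WithLp.toLp 2 fun i => if i = 0 then 0 else if i = 1 then 0 else x i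
      map_add' := fun x y => by
        ext i
        simp only [PiLp.add_apply]
        split_ifs <;> simp
      map_smul' := fun c x => by
        ext i
        simp only [PiLp.smul_apply, RingHom.id_apply]
        split_ifs <;> simp }

private theorem StB_Q_apply {n : ℕ} (x : E (n + 2)) (i : Fin (n + 2)) :
    StB_Q n x i = if i = 0 then 0 else if i = 1 then 0 else x i := rfl

private theorem StB_Q0 {n : ℕ} (x : E (n + 2)) : StB_Q n x 0 = 0 := by
  rw [StB_Q_apply, if_pos rfl]

private theorem StB_Q1 {n : ℕ} (x : E (n + 2)) : StB_Q n x 1 = 0 := by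
  rw [StB_Q_apply]
  split_ifs
  · rfl
  · rfl
  · exact absurd rfl ‹_›

private theorem StB_Q2 {n : ℕ} (x : E (n + 2)) (i : Fin n) :
    StB_Q n x i.succ.succ = x i.succ.succ := by
  have h1 : i.succ.succ ≠ 1 := by
    intro h
    have h2 : i.succ.succ = (0 : Fin (n + 1)).succ := h
    exact Fin.succ_ne_zero _ (Fin.succ_injective _ h2)
  rw [StB_Q_apply, if_neg (Fin.succ_ne_zero _), if_neg h1]

theorem exists_straight {n : ℕ} {H : E (n + 2) → E 2} {p : E (n + 2)} (hH : ContDiffAt ℝ 1 H p)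
    (hs : Function.Surjective (fderiv ℝ H p)) :
    ∃ (Φ : E (n + 2) → E (n + 2)) (R : E (n + 2) ≃ₗᵢ[ℝ] E (n + 2)), ContDiffAt ℝ 1 Φ p ∧
      (∀ h, fderiv ℝ Φ p h = R h) ∧ ∀ x, ax (Φ x) ↔ H x = 0 := by
  obtain ⟨R, B, hB0, hB1, hB2⟩ := exists_adapted (fderiv ℝ H p) hs
  have hHd : HasFDerivAt H (fderiv ℝ H p) p := (hH.differentiableAt (by norm_num)).hasFDerivAt
  let L : E (n + 2) →L[ℝ] E (n + 2) := (StB_Q n).comp (R.toContinuousLinearEquiv : E (n + 2) →L[ℝ] E (n + 2))
  have hLx : ∀ x, L x = StB_Q n (R x) := fun x => rfl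
  have h1 : HasFDerivAt (fun x => L (x - p)) L p := by
    have h2 : HasFDerivAt (fun x : E (n + 2) => x - p) (ContinuousLinearMap.id ℝ _) p :=
      (hasFDerivAt_id p).sub_const p
    have h3 := L.hasFDerivAt.comp p h2
    rw [ContinuousLinearMap.comp_id] at h3
    exact h3
  have h2 : HasFDerivAt (fun x => B (H x)) (B.comp (fderiv ℝ H p)) p :=
    B.hasFDerivAt.comp p hHd
  refine ⟨fun x => L (x - p) + B (H x), R, ?_, fun h => ?_, fun x => ?_⟩
  · exact (L.contDiff.comp (contDiff_id.sub contDiff_const)).contDiffAt.add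
      (B.contDiff.contDiffAt.comp p hH)
  · have h3 : HasFDerivAt (fun x => L (x - p) + B (H x)) (L + B.comp (fderiv ℝ H p)) p :=
      h1.add h2
    rw [h3.fderiv]
    ext i
    change L h i + B (fderiv ℝ H p h) i = R h i
    rw [hLx]
    refine Fin.cases ?_ (fun j => ?_) i
    · rw [StB_Q0, zero_add]
      exact (hB1 h).1
    · refine Fin.cases ?_ (fun k => ?_) j
      · change StB_Q n (R h) 1 + B (fderiv ℝ H p h) 1 = R h 1
        rw [StB_Q1, zero_add]
        exact (hB1 h).2
      · rw [StB_Q2, hB0, add_zero]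
  · change (L (x - p) 0 + B (H x) 0 = 0 ∧ L (x - p) 1 + B (H x) 1 = 0) ↔ H x = 0
    rw [hLx, StB_Q0, StB_Q1, zero_add, zero_add]
    constructor
    · rintro ⟨g1, g2⟩
      exact hB2 _ g1 g2
    · intro g
      rw [g, map_zero]
      exact ⟨rfl, rfl⟩

end MB
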