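import Pool.Agent.H16.MT.TDefs

/-!
Row StC (MP_c844e7, about 100 lines).  A `C¹` map whose derivative at `p` is an isometry, near `p`.

PROOF.  `ContDiffAt ℝ 1 Φ p`: `Φ` is differentiable near `p` and `fderiv ℝ Φ` is continuous at `p` (`ContDiffAt.eventually`, `ContDiffAt.differentiableAt`, `ContDiffAt.continuousAt_fderiv`-type lemmas, or
`contDiffAt_one_iff` : `∃ f', ∃ u ∈ 𝓝 x, ContinuousOn f' u ∧ ∀ x ∈ u, HasFDerivAt f (f' x) x`).  So near `p`: `‖fderiv ℝ Φ x - fderiv ℝ Φ p‖ ≤ δ`, which gives `‖fderiv ℝ Φ x h‖ ≥ ‖R h‖ - δ‖h‖ = (1-δ)‖h‖`; so `fderiv ℝ Φ x` is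
injective, `det ≠ 0` (`LinearMap.det` of an injective endomorphism in finite dimension: `LinearMap.bot_lt_ker_of_det_eq_zero` or `LinearEquiv.isUnit_det`).  `det` is continuous (`ContinuousLinearMap.continuous_det`) and
`|det (fderiv ℝ Φ p)| = |det R| = 1` (`LinearIsometryEquiv` : `LinearIsometryEquiv.det_eq…`/`Real: |det| = 1` because `R` preserves volume, or `(R : matrix)ᵀ R = 1`), so `|det| ≤ 1 + δ` near `p`.  Injectivity and openness near `p`: `Φ` has a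
strict derivative at `p` (`ContDiffAt.hasStrictFDerivAt`), which is an equivalence: `HasStrictFDerivAt.toOpenPartialHomeomorph` (source a neighbourhood of `p`, on which `Φ` is injective and open:
`OpenPartialHomeomorph.isOpen_image_of_subset_source`).  Take `ρ` so small that the ball is in all these neighbourhoods.
-/

set_option autoImplicit false

open MeasureTheory Set

namespace MB

theorem StC_det {n : ℕ} (R : E n ≃ₗᵢ[ℝ] E n) (A : E n →L[ℝ] E n) (h : ∀ v, A v = R v) :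
    |A.det| = 1 := by
  have h1 := MeasureTheory.Measure.addHaar_image_linearMap (volume : Measure (E n))
    (A : E n →ₗ[ℝ] E n) (Metric.ball 0 1)
  have h2 : (A : E n →ₗ[ℝ] E n) '' (Metric.ball 0 1) = Metric.ball 0 1 := by
    have h3 : (A : E n →ₗ[ℝ] E n) '' (Metric.ball 0 1) = R '' (Metric.ball 0 1) := by
      refine Set.image_congr fun v _ => h v
    rw [h3, LinearIsometryEquiv.image_ball, map_zero]
  rw [h2] at h1
  have h4 : volume (Metric.ball (0 : E n) 1) ≠ 0 := (Metric.measure_ball_pos _ _ one_pos).ne'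
  have h5 : volume (Metric.ball (0 : E n) 1) ≠ ⊤ := measure_ball_lt_top.ne
  have h6 : ENNReal.ofReal |LinearMap.det (A : E n →ₗ[ℝ] E n)| = 1 := by
    have h7 : 1 * volume (Metric.ball (0 : E n) 1) =
        ENNReal.ofReal |LinearMap.det (A : E n →ₗ[ℝ] E n)| * volume (Metric.ball (0 : E n) 1) := by
      rw [one_mul]; exact h1
    exact ((ENNReal.mul_left_inj h4 h5).1 h7).symm
  rw [ENNReal.ofReal_eq_one] at h6
  exact h6

theorem straight_bounds {n : ℕ} {Φ : E (n + 2) → E (n + 2)} {p : E (n + 2)}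
    (hΦ : ContDiffAt ℝ 1 Φ p) {R : E (n + 2) ≃ₗᵢ[ℝ] E (n + 2)} (hR : ∀ h, fderiv ℝ Φ p h = R h)
    {δ : ℝ} (hδ : 0 < δ) (hδ1 : δ < 1) :
    ∃ ρ : ℝ, 0 < ρ ∧ (∀ x ∈ Metric.ball p ρ, DifferentiableAt ℝ Φ x ∧ (fderiv ℝ Φ x).det ≠ 0 ∧
        |(fderiv ℝ Φ x).det| ≤ 1 + δ ∧ ∀ h, (1 - δ) * ‖h‖ ≤ ‖fderiv ℝ Φ x h‖) ∧
      InjOn Φ (Metric.ball p ρ) ∧ ∀ O ⊆ Metric.ball p ρ, IsOpen O → IsOpen (Φ '' O) := by
  have e1 : ∀ᶠ x in nhds p, DifferentiableAt ℝ Φ x := by
    filter_upwards [hΦ.eventually (by simp)] with x hx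
    exact hx.differentiableAt (by simp)
  have hc : ContinuousAt (fderiv ℝ Φ) p := hΦ.continuousAt_fderiv (by simp)
  have e2 : ∀ᶠ x in nhds p, ‖fderiv ℝ Φ x - fderiv ℝ Φ p‖ < δ := by
    have := Metric.tendsto_nhds.1 hc δ hδ
    filter_upwards [this] with x hx
    rwa [dist_eq_norm] at hx
  have hdet : |(fderiv ℝ Φ p).det| = 1 := StC_det R _ hR
  have e3 : ∀ᶠ x in nhds p, |(fderiv ℝ Φ x).det| < 1 + δ := by
    have hc2 : ContinuousAt (fun x => |(fderiv ℝ Φ x).det|) p :=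
      (ContinuousLinearMap.continuous_det.continuousAt.comp hc).abs
    have h1 : |(fderiv ℝ Φ p).det| < 1 + δ := by rw [hdet]; linarith
    exact hc2.eventually (gt_mem_nhds h1)
  have hstr := hΦ.hasStrictFDerivAt (by simp : (1 : WithTop ℕ∞) ≠ 0)
  let R' : E (n + 2) ≃L[ℝ] E (n + 2) := R.toContinuousLinearEquiv
  have hR' : (R' : E (n + 2) →L[ℝ] E (n + 2)) = fderiv ℝ Φ p := by
    ext1 v
    exact (hR v).symm
  rw [← hR'] at hstr
  set e := HasStrictFDerivAt.toOpenPartialHomeomorph Φ hstr with he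
  have hes : p ∈ e.source := hstr.mem_toOpenPartialHomeomorph_source
  have e4 : ∀ᶠ x in nhds p, x ∈ e.source := e.open_source.mem_nhds hes
  obtain ⟨ρ, hρ, hball⟩ := Metric.eventually_nhds_iff_ball.1 (e1.and (e2.and (e3.and e4)))
  have hsrc : Metric.ball p ρ ⊆ e.source := fun x hx => (hball x hx).2.2.2
  have hcoe : (e : E (n + 2) → E (n + 2)) = Φ := hstr.toOpenPartialHomeomorph_coe
  refine ⟨ρ, hρ, ?_, ?_, ?_⟩
  · intro x hx
    obtain ⟨d1, d2, d3, -⟩ := hball x hx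
    have hlow : ∀ h, (1 - δ) * ‖h‖ ≤ ‖fderiv ℝ Φ x h‖ := by
      intro h
      have h1 : ‖(fderiv ℝ Φ x - fderiv ℝ Φ p) h‖ ≤ δ * ‖h‖ :=
        (ContinuousLinearMap.le_opNorm _ _).trans (by gcongr)
      have h2 : ‖fderiv ℝ Φ p h‖ = ‖h‖ := by rw [hR h, R.norm_map]
      have h3 : ‖fderiv ℝ Φ p h‖ ≤ ‖fderiv ℝ Φ x h‖ + ‖(fderiv ℝ Φ x - fderiv ℝ Φ p) h‖ := by
        have : fderiv ℝ Φ p h = fderiv ℝ Φ x h - (fderiv ℝ Φ x - fderiv ℝ Φ p) h := by
          rw [sub_apply]; abel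
        rw [this]
        exact norm_sub_le _ _
      rw [h2] at h3
      linarith
    refine ⟨d1, ?_, d3.le, hlow⟩
    intro h0
    have h1 : LinearMap.det (fderiv ℝ Φ x : E (n + 2) →ₗ[ℝ] E (n + 2)) = 0 := h0
    have h2 := LinearMap.bot_lt_ker_of_det_eq_zero h1
    obtain ⟨v, hv, hv0⟩ := Submodule.exists_mem_ne_zero_of_ne_bot h2.ne'
    have h3 := hlow v
    have h4 : fderiv ℝ Φ x v = 0 := hv
    rw [h4, norm_zero] at h3
    have h5 : 0 < ‖v‖ := norm_pos_iff.2 hv0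
    nlinarith
  · intro x hx y hy hxy
    exact e.injOn (hsrc hx) (hsrc hy) (by rw [hcoe]; exact hxy)
  · intro O hO hOo
    have := e.isOpen_image_of_subset_source hOo (hO.trans hsrc)
    rwa [hcoe] at this

end MB
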