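import Pool.Agent.H16.MT.TDefs

/-!
Row Bai (MP_c844e7, about 80 lines).  Baire category for the branch set.

PROOF.  `Bf = {x ∈ D | ¬ LocInj f x}`, where `LocInj f x = ∃ W ∈ 𝓝 x, InjOn f W`.  The set of points with `LocInj` is open (if `f` is injective on `W ∈ 𝓝 x`, then the interior of `W` consists of such points), so `Bf` is closed in the open
set `D`: `Bf = D ∩ C` with `C` closed, locally closed, so `↥Bf` is locally compact (`IsLocallyClosed.locallyCompactSpace`-type lemma, or `IsOpen.locallyCompactSpace`/`IsClosed…` in two steps), Hausdorff, hence a Baire space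
(`BaireSpace.of_t2Space_locallyCompactSpace` or the corresponding instance), nonempty.  The sets `{x : ↥Bf | f x ∈ Z j}` are closed in `↥Bf` (`f` is continuous on `Bf`) and cover it: `nonempty_interior_of_iUnion_of_closed` gives `j` and a
point `x₀ ∈ Bf` in the interior: an open `U'` with `x₀ ∈ U'` and `f x ∈ Z j` for `x ∈ U' ∩ Bf`.  `U = U' ∩ D`.
-/

set_option autoImplicit false

open MeasureTheory Set

namespace MB

theorem branch_baire {n : ℕ} {D : Set (E (n + 2))} {f : E (n + 2) → E (n + 2)} (hD : IsOpen D)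
    (hc : ContinuousOn f D) (Z : ℕ → Set (E (n + 2))) (hZ : ∀ j, IsClosed (Z j))
    (hB : ∀ x ∈ D, (¬ ∃ W ∈ nhds x, InjOn f W) → f x ∈ ⋃ j, Z j)
    (hne : ∃ x ∈ D, ¬ ∃ W ∈ nhds x, InjOn f W) :
    ∃ (j : ℕ) (x₀ : E (n + 2)) (U : Set (E (n + 2))), IsOpen U ∧ x₀ ∈ U ∧ U ⊆ D ∧
      (¬ ∃ W ∈ nhds x₀, InjOn f W) ∧ ∀ x ∈ U, (¬ ∃ W ∈ nhds x, InjOn f W) → f x ∈ Z j := by
  classical
  set C : Set (E (n + 2)) := {x | ¬ ∃ W ∈ nhds x, InjOn f W} with hC
  have hCc : IsClosed C := by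
    rw [← isOpen_compl_iff, isOpen_iff_mem_nhds]
    intro x hx
    simp only [hC, mem_compl_iff, mem_setOf_eq, not_not] at hx
    obtain ⟨W, hW, hinj⟩ := hx
    refine Filter.mem_of_superset (interior_mem_nhds.2 hW) ?_
    intro y hy
    simp only [hC, mem_compl_iff, mem_setOf_eq, not_not]
    exact ⟨W, mem_interior_iff_mem_nhds.1 hy, hinj⟩
  have hlc : IsLocallyClosed (D ∩ C) := hD.isLocallyClosed.inter hCc.isLocallyClosed
  haveI : LocallyCompactSpace ↥(D ∩ C) := hlc.locallyCompactSpace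
  haveI : Nonempty ↥(D ∩ C) := by
    obtain ⟨x, h1, h2⟩ := hne
    exact ⟨⟨x, h1, h2⟩⟩
  have hcont : Continuous (fun x : ↥(D ∩ C) => f x) := by
    have h1 : ContinuousOn f (D ∩ C) := hc.mono inter_subset_left
    exact continuousOn_iff_continuous_restrict.1 h1
  have hcl : ∀ j, IsClosed {x : ↥(D ∩ C) | f x ∈ Z j} := fun j => (hZ j).preimage hcont
  have hU : ⋃ j, {x : ↥(D ∩ C) | f x ∈ Z j} = univ := by
    refine eq_univ_of_forall ?_
    rintro ⟨x, hx1, hx2⟩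
    obtain ⟨j, hj⟩ := mem_iUnion.1 (hB x hx1 hx2)
    exact mem_iUnion.2 ⟨j, hj⟩
  obtain ⟨j, x₀, hx₀⟩ := nonempty_interior_of_iUnion_of_closed hcl hU
  have h1 : {x : ↥(D ∩ C) | f x ∈ Z j} ∈ nhds x₀ := mem_interior_iff_mem_nhds.1 hx₀
  rw [nhds_subtype, Filter.mem_comap] at h1
  obtain ⟨T, hT, hTs⟩ := h1
  refine ⟨j, x₀, interior T ∩ D, isOpen_interior.inter hD, ⟨?_, x₀.2.1⟩, inter_subset_right, x₀.2.2, ?_⟩
  · exact mem_interior_iff_mem_nhds.2 hT
  · intro x hx hxC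
    have h2 : x ∈ T := interior_subset hx.1
    have h3 : (⟨x, hx.2, hxC⟩ : ↥(D ∩ C)) ∈ {x : ↥(D ∩ C) | f x ∈ Z j} := hTs h2
    exact h3

end MB
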