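import Pool.Agent.H16.MB.Cor
import Pool.Agent.H16.MT.Nor
import Pool.Agent.H16.MT.Des
import Pool.Agent.H16.MT.Ext
import Pool.Agent.H16.MT.Ont
import Pool.Agent.H16.MT.Drv

/-!
Row Flt (MP_c844e7, about 120 lines).  The bound for a flat image of the branch set.  Assembly; uses only the STATEMENTS of the imported rows.

PROOF.
`bound_of_core`: if `Dat c (2/ε) G` has a solution `G` for every `0 < ε ≤ 1/2`, `0 ≤ c`, then by `core` (constant `C`) the inequality of `core` holds for all `0 < ε ≤ 1/2`; let `ε → 0` (`ge_of_tendsto`/`le_of_tendsto` with `𝓝[>] 0`; or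
choose `ε` explicitly): `n + 3 ≤ 2/(n+2) + (n+1)n/(n+2) + 2(n+1)/(n+2) c + n/(n+2) (2 + 23/5 (2/n))`; multiply by `n + 2`: `(n+3)(n+2) ≤ 2 + n(n+1) + 2(n+1)c + 2n + 46/5`, that is `2(n+1)c ≥ 2(n+1) - 36/5`,
`c ≥ 1 - 18/(5(n+1))`.
`flat_bound`: `exists_nrm` (the local injectivity from `hoff`) gives `U, r`; `exists_desc` gives `k ≥ 1` and `G`, `exists_ext` gives `G'` on the ball; `card_fibre` and `hm U` (a neighbourhood of `x₀`) give `m ≤ k`
(`Nat.cast_le` in `ℕ∞`).  For `ε > 0`: `dat_of_model` with `R = 2/ε`, `f (G' y) = winding k y`, and `hd` from `hoff` (for `y ∈ Bp (f x₀) r`: `f (G' y) = winding k y` is not on the axis by `ax_winding`, `G' y ∈ U ⊆ D`).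
`K > 0`: at some `y ∈ Bp (f x₀) r` (a point `f x₀ + t e₀`, `0 < t < r`) with any unit vector `h` (`EuclideanSpace.single 0 1`): `0 < |det| ≤ K ‖…‖^(n+2)`.  So `0 ≤ K/k` and `bound_of_core` gives `1 - 18/(5(n+1)) ≤ K/k`.  Finally
`m (1 - 18/(5(n+1))) ≤ k (1 - 18/(5(n+1))) ≤ K`, as `1 - 18/(5(n+1)) ≥ 0` for `n ≥ 5`.
-/

set_option autoImplicit false

open MeasureTheory Set

namespace MB

theorem bound_of_core {n : ℕ} (hn : 5 ≤ n) {c : ℝ} (hc : 0 ≤ c)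
    (h : ∀ R : ℝ, 0 < R → ∃ G : E (n + 2) → E (n + 2), Dat c R G) :
    1 - 18 / (5 * ((n : ℝ) + 1)) ≤ c := by
  obtain ⟨C, hC⟩ := core n hn
  have hn5 : (5 : ℝ) ≤ n := by exact_mod_cast hn
  have hn0 : (0 : ℝ) < n := by linarith
  obtain ⟨A, hA⟩ : ∃ A : ℝ, A = 2 / ((n : ℝ) + 2) + ((n : ℝ) + 1) * n / (n + 2) +
      2 * ((n : ℝ) + 1) / (n + 2) * c + (n : ℝ) / (n + 2) * (2 + 23 / 5 * (2 / n)) := ⟨_, rfl⟩
  have h1 : ∀ ε : ℝ, 0 < ε → ε ≤ 1 / 2 → (n : ℝ) + 3 ≤ (1 + ε) * A + C * ε := by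
    intro ε hε hε1
    obtain ⟨G, hG⟩ := h (2 / ε) (by positivity)
    rw [hA]
    exact hC ε hε hε1 c hc G hG
  have h2 : (n : ℝ) + 3 ≤ A := by
    have ht : Filter.Tendsto (fun ε : ℝ => (1 + ε) * A + C * ε) (nhdsWithin 0 (Ioi 0)) (nhds A) := by
      have hcont : Continuous fun ε : ℝ => (1 + ε) * A + C * ε := by fun_prop
      have h3 := hcont.tendsto 0
      have e : (1 + (0 : ℝ)) * A + C * 0 = A := by ring
      rw [e] at h3
      exact h3.mono_left nhdsWithin_le_nhds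
    refine ge_of_tendsto ht ?_
    have h4 : Ioc (0 : ℝ) (1 / 2) ∈ nhdsWithin (0 : ℝ) (Ioi 0) := Ioc_mem_nhdsGT (by norm_num)
    filter_upwards [h4] with ε hε
    exact h1 ε hε.1 hε.2
  have h3 : ((n : ℝ) + 3) * (n + 2) ≤ A * (n + 2) := mul_le_mul_of_nonneg_right h2 (by linarith)
  have e1 : A * (n + 2) = 2 + ((n : ℝ) + 1) * n + 2 * ((n : ℝ) + 1) * c + 2 * n + 46 / 5 := by
    rw [hA]
    field_simp
    ring
  rw [e1] at h3
  have h4 : 2 * ((n : ℝ) + 1) - 36 / 5 ≤ 2 * ((n : ℝ) + 1) * c := by nlinarith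
  have e2 : 1 - 18 / (5 * ((n : ℝ) + 1)) = (2 * ((n : ℝ) + 1) - 36 / 5) / (2 * ((n : ℝ) + 1)) := by
    field_simp
    ring
  rw [e2, div_le_iff₀ (by positivity)]
  linarith

theorem flat_bound {n : ℕ} (hn : 5 ≤ n) {D : Set (E (n + 2))} {f : E (n + 2) → E (n + 2)} {K : ℝ}
    (hD : IsOpen D) (hc : ContinuousOn f D) (ho : ∀ O ⊆ D, IsOpen O → IsOpen (f '' O))
    (hdisc : ∀ x ∈ D, ∃ W ∈ nhds x, ∀ z ∈ W, f z = f x → z = x)
    (hoff : ∀ x ∈ D, ¬ ax (f x) → (∃ W ∈ nhds x, InjOn f W) ∧ DifferentiableAt ℝ f x ∧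
      (fderiv ℝ f x).det ≠ 0 ∧ ∀ h : E (n + 2), ‖h‖ = 1 →
        |(fderiv ℝ f x).det| ≤ K * ‖fderiv ℝ f x h‖ ^ (n + 2))
    {x₀ : E (n + 2)} (hx₀ : x₀ ∈ D) (hax : ax (f x₀)) (m : ℕ)
    (hm : ∀ W ∈ nhds x₀, ∃ y, (m : ℕ∞) ≤ (W ∩ f ⁻¹' {y}).encard) :
    m * (1 - 18 / (5 * ((n : ℝ) + 1))) ≤ K := by
  obtain ⟨U, r, hr, hx0U, hUD, hN⟩ := exists_nrm hD hc ho hdisc
    (fun x hx hax => (hoff x hx hax).1) hx₀
  obtain ⟨k, hk, G, hG, hi, hf⟩ := exists_desc hax hr hN ⟨x₀, hx0U⟩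
  obtain ⟨G', hG', hi', hf'⟩ := exists_ext hk hax hN hG hi hf
  have hmk : m ≤ k := by
    obtain ⟨y, hy⟩ := hm U (hN.opn.mem_nhds hx0U)
    have h1 := hy.trans (card_fibre hk hax hr hN hG' hi' hf' y)
    exact_mod_cast h1
  have hd : ∀ y ∈ Bp (f x₀) r, DifferentiableAt ℝ f (G' y) ∧ (fderiv ℝ f (G' y)).det ≠ 0 ∧
      ∀ h : E (n + 2), ‖h‖ = 1 →
        |(fderiv ℝ f (G' y)).det| ≤ K * ‖fderiv ℝ f (G' y) h‖ ^ (n + 2) := by
    intro y hy
    have h1 := hf' y hy.1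
    refine (hoff (G' y) (hUD h1.1) ?_).2
    rw [h1.2, ax_winding hk]
    exact hy.2
  have hK : 0 < K := by
    obtain ⟨y, hyd⟩ : ∃ y : E (n + 2), y = f x₀ + EuclideanSpace.single 0 (r / 2) := ⟨_, rfl⟩
    have hy : y ∈ Bp (f x₀) r := by
      refine ⟨?_, ?_⟩
      · rw [Metric.mem_ball, dist_eq_norm, hyd, add_sub_cancel_left, EuclideanSpace.norm_single,
          Real.norm_of_nonneg (by linarith)]
        linarith
      · intro h
        have h1 := h.1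
        rw [hyd] at h1
        have h2 : (f x₀ + EuclideanSpace.single 0 (r / 2) : E (n + 2)) 0 = f x₀ 0 + r / 2 := by
          simp
        rw [h2, hax.1] at h1
        linarith
    obtain ⟨-, h1, h2⟩ := hd y hy
    have h3 := h2 (EuclideanSpace.single 0 1) (by simp)
    have h4 : 0 < |(fderiv ℝ f (G' y)).det| := abs_pos.2 h1
    by_contra hcon
    push Not at hcon
    have h5 : K * ‖fderiv ℝ f (G' y) (EuclideanSpace.single 0 1)‖ ^ (n + 2) ≤ 0 :=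
      mul_nonpos_of_nonpos_of_nonneg hcon (by positivity)
    linarith
  have hk0 : (0 : ℝ) < k := by
    have : 0 < k := hk
    exact_mod_cast this
  have hb := bound_of_core hn (c := K / k) (by positivity) (fun R hR =>
    dat_of_model hk hax hr hG' hi' (fun y hy => (hf' y hy).2) hd R hR)
  have hn5 : (5 : ℝ) ≤ n := by exact_mod_cast hn
  have h0 : 0 ≤ 1 - 18 / (5 * ((n : ℝ) + 1)) := by
    have : 18 / (5 * ((n : ℝ) + 1)) ≤ 1 := by
      rw [div_le_one (by positivity)]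
      linarith
    linarith
  have hmk' : (m : ℝ) ≤ k := by exact_mod_cast hmk
  calc (m : ℝ) * (1 - 18 / (5 * ((n : ℝ) + 1))) ≤ k * (1 - 18 / (5 * ((n : ℝ) + 1))) :=
        mul_le_mul_of_nonneg_right hmk' h0
    _ ≤ k * (K / k) := mul_le_mul_of_nonneg_left hb hk0.le
    _ = K := by field_simp

end MB
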