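import Pool.Agent.H16.MT.Flt
import Pool.Agent.H16.MT.StB
import Pool.Agent.H16.MT.StC

/-!
Row Gen (MP_c844e7, about 150 lines).  The bound when the image of the branch set lies on a `C¹` submanifold of codimension two.

PROOF.  `exists_straight` at `p = f x₀`: `Φ, R`.  Let `0 < δ < 1`; `straight_bounds`: `ρ`.  `D₁ = D ∩ f ⁻¹' ball p ρ` (open), `f₁ = Φ ∘ f`.  Check the hypotheses of `flat_bound` for `D₁, f₁, K₁ = (1+δ) K/(1-δ)^(n+2)`: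
continuity: `Φ` is differentiable, so continuous, on the ball.  Open: `f '' O` is open, contained in the ball, `Φ '' (f '' O)` is open.  Discrete: for `x ∈ D₁` and `z` near `x` both `f z, f x` are in the ball; `Φ` is injective
there, so `f₁ z = f₁ x` gives `f z = f x`, `z = x`.  `ax (f₁ x) ↔ H (f x) = 0`.  Off the axis: `f` is injective on some `W ∈ 𝓝 x`; `f₁` is injective on `W ∩ D₁`.  Chain rule: `fderiv f₁ x = fderiv Φ (f x) ∘ fderiv f x`,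
`det` is multiplicative (`ContinuousLinearMap.det`, `LinearMap.det_comp`), `≠ 0`.  For a unit vector `h`: `|det Df₁| ≤ (1+δ) |det Df| ≤ (1+δ) K ‖Df h‖^(n+2)` and `‖Df h‖ ≤ ‖Df₁ h‖/(1-δ)`; here `K ≥ 0` (otherwise the
inequality for `f` at `x` and a unit vector is violated: `0 < |det| ≤ K‖…‖^(n+2)`; at such an `x`).  `x₀ ∈ D₁`, `ax (f₁ x₀)` as `H (f x₀) = 0`.  `hm` for `f₁`: for `W ∈ 𝓝 x₀` apply `hm` to `W ∩ D₁`: `m ≤ encard ((W ∩ D₁) ∩ f ⁻¹' {y})`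
and this set is contained in `W ∩ f₁ ⁻¹' {Φ y}`.  So `m (1 - 18/(5(n+1))) ≤ (1+δ) K/(1-δ)^(n+2)` for all `0 < δ < 1`; let `δ → 0` (`ge_of_tendsto` along `𝓝[>] 0`, continuity of the right side at `0`).
-/

set_option autoImplicit false

open MeasureTheory Set

namespace MB

private theorem Gen_det {n : ℕ} (A B : E (n + 2) →L[ℝ] E (n + 2)) :
    (A.comp B).det = A.det * B.det := by
  change LinearMap.det ((A : E (n + 2) →ₗ[ℝ] E (n + 2)) ∘ₗ (B : E (n + 2) →ₗ[ℝ] E (n + 2))) = _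
  rw [LinearMap.det_comp]

/-- The estimate of the chain rule. -/
private theorem Gen_chain {n : ℕ} {A B : E (n + 2) →L[ℝ] E (n + 2)} {K δ : ℝ} (hδ : 0 < δ)
    (hδ1 : δ < 1) (hA : |A.det| ≤ 1 + δ) (hA2 : ∀ h, (1 - δ) * ‖h‖ ≤ ‖A h‖)
    (hB : B.det ≠ 0) {h : E (n + 2)} (hB2 : |B.det| ≤ K * ‖B h‖ ^ (n + 2)) :
    |(A.comp B).det| ≤ (1 + δ) * K / (1 - δ) ^ (n + 2) * ‖A.comp B h‖ ^ (n + 2) := by
  have h1 : 0 < 1 - δ := by linarith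
  have hpos : 0 < |B.det| := abs_pos.mpr hB
  have hp0 : 0 ≤ ‖B h‖ ^ (n + 2) := pow_nonneg (norm_nonneg _) _
  have hK : 0 ≤ K := by
    by_contra hcon
    have h2 : K * ‖B h‖ ^ (n + 2) ≤ 0 := mul_nonpos_of_nonpos_of_nonneg (by linarith) hp0
    linarith
  rw [Gen_det, abs_mul]
  have h3 : |A.det| * |B.det| ≤ (1 + δ) * (K * ‖B h‖ ^ (n + 2)) :=
    mul_le_mul hA hB2 (abs_nonneg _) (by linarith)
  refine h3.trans ?_
  have h4 : ((1 - δ) * ‖B h‖) ^ (n + 2) ≤ ‖A (B h)‖ ^ (n + 2) :=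
    pow_le_pow_left₀ (mul_nonneg h1.le (norm_nonneg _)) (hA2 (B h)) _
  rw [mul_pow] at h4
  have h5 : 0 < (1 - δ) ^ (n + 2) := pow_pos h1 _
  have h6 : ‖B h‖ ^ (n + 2) ≤ ‖A (B h)‖ ^ (n + 2) / (1 - δ) ^ (n + 2) := by
    rw [le_div_iff₀ h5, mul_comm]
    exact h4
  have h7 : (1 + δ) * K / (1 - δ) ^ (n + 2) * ‖A.comp B h‖ ^ (n + 2) =
      (1 + δ) * K * (‖A (B h)‖ ^ (n + 2) / (1 - δ) ^ (n + 2)) := by
    rw [ContinuousLinearMap.comp_apply]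
    ring
  rw [h7, ← mul_assoc]
  exact mul_le_mul_of_nonneg_left h6 (mul_nonneg (by linarith) hK)

private theorem Gen_step {n : ℕ} (hn : 5 ≤ n) {D : Set (E (n + 2))} {f : E (n + 2) → E (n + 2)}
    {K : ℝ} (hD : IsOpen D) (hc : ContinuousOn f D) (ho : ∀ O ⊆ D, IsOpen O → IsOpen (f '' O))
    (hdisc : ∀ x ∈ D, ∃ W ∈ nhds x, ∀ z ∈ W, f z = f x → z = x)
    {x₀ : E (n + 2)} (hx₀ : x₀ ∈ D) {H : E (n + 2) → E 2}
    (h0 : H (f x₀) = 0)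
    (hoff : ∀ x ∈ D, H (f x) ≠ 0 → (∃ W ∈ nhds x, InjOn f W) ∧ DifferentiableAt ℝ f x ∧
      (fderiv ℝ f x).det ≠ 0 ∧ ∀ h : E (n + 2), ‖h‖ = 1 →
        |(fderiv ℝ f x).det| ≤ K * ‖fderiv ℝ f x h‖ ^ (n + 2))
    (m : ℕ) (hm : ∀ W ∈ nhds x₀, ∃ y, (m : ℕ∞) ≤ (W ∩ f ⁻¹' {y}).encard)
    {Φ : E (n + 2) → E (n + 2)} {R : E (n + 2) ≃ₗᵢ[ℝ] E (n + 2)} (hΦ : ContDiffAt ℝ 1 Φ (f x₀))
    (hR : ∀ h, fderiv ℝ Φ (f x₀) h = R h) (hax : ∀ x, ax (Φ x) ↔ H x = 0)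
    {δ : ℝ} (hδ : 0 < δ) (hδ1 : δ < 1) :
    m * (1 - 18 / (5 * ((n : ℝ) + 1))) ≤ (1 + δ) * K / (1 - δ) ^ (n + 2) := by
  obtain ⟨ρ, hρ, hb, hinj, hop⟩ := straight_bounds hΦ hR hδ hδ1
  have hD1 : IsOpen (D ∩ f ⁻¹' Metric.ball (f x₀) ρ) :=
    hc.isOpen_inter_preimage hD Metric.isOpen_ball
  have hx1 : x₀ ∈ D ∩ f ⁻¹' Metric.ball (f x₀) ρ := ⟨hx₀, Metric.mem_ball_self hρ⟩
  refine flat_bound hn (D := D ∩ f ⁻¹' Metric.ball (f x₀) ρ) (f := fun x => Φ (f x)) hD1 ?_ ?_ ?_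
    ?_ hx1 ((hax _).2 h0) m ?_
  · have hΦc : ContinuousOn Φ (Metric.ball (f x₀) ρ) := fun y hy =>
      (hb y hy).1.continuousAt.continuousWithinAt
    exact hΦc.comp (hc.mono inter_subset_left) fun x hx => hx.2
  · intro O hO hOo
    have h1 : IsOpen (f '' O) := ho O (hO.trans inter_subset_left) hOo
    have h2 : f '' O ⊆ Metric.ball (f x₀) ρ := by
      rintro _ ⟨x, hx, rfl⟩
      exact (hO hx).2
    have h3 := hop _ h2 h1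
    rw [← image_comp] at h3
    exact h3
  · intro x hx
    obtain ⟨W, hW, hWd⟩ := hdisc x hx.1
    refine ⟨W ∩ (D ∩ f ⁻¹' Metric.ball (f x₀) ρ), Filter.inter_mem hW (hD1.mem_nhds hx), ?_⟩
    rintro z ⟨hz1, hz2⟩ hz3
    exact hWd z hz1 (hinj hz2.2 hx.2 hz3)
  · intro x hx hxa
    obtain ⟨⟨W, hW, hWi⟩, hd, hdet, hbd⟩ := hoff x hx.1 (fun h => hxa ((hax _).2 h))
    obtain ⟨g1, g2, g3, g4⟩ := hb (f x) hx.2
    have hfd : fderiv ℝ (fun x => Φ (f x)) x = (fderiv ℝ Φ (f x)).comp (fderiv ℝ f x) :=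
      fderiv_comp x g1 hd
    refine ⟨⟨W ∩ (D ∩ f ⁻¹' Metric.ball (f x₀) ρ), Filter.inter_mem hW (hD1.mem_nhds hx), ?_⟩,
      g1.comp x hd, ?_, ?_⟩
    · rintro a ⟨ha1, ha2⟩ b ⟨hb1, hb2⟩ hab
      exact hWi ha1 hb1 (hinj ha2.2 hb2.2 hab)
    · rw [hfd, Gen_det]
      exact mul_ne_zero g2 hdet
    · intro h hh
      rw [hfd]
      exact Gen_chain hδ hδ1 g3 g4 hdet (hbd h hh)
  · intro W hW
    obtain ⟨y, hy⟩ := hm (W ∩ (D ∩ f ⁻¹' Metric.ball (f x₀) ρ))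
      (Filter.inter_mem hW (hD1.mem_nhds hx1))
    refine ⟨Φ y, hy.trans (encard_le_encard ?_)⟩
    rintro z ⟨⟨hz1, -⟩, hz2⟩
    refine ⟨hz1, ?_⟩
    have h1 : f z = y := hz2
    change Φ (f z) = Φ y
    rw [h1]

theorem c1_bound {n : ℕ} (hn : 5 ≤ n) {D : Set (E (n + 2))} {f : E (n + 2) → E (n + 2)} {K : ℝ}
    (hD : IsOpen D) (hc : ContinuousOn f D) (ho : ∀ O ⊆ D, IsOpen O → IsOpen (f '' O))
    (hdisc : ∀ x ∈ D, ∃ W ∈ nhds x, ∀ z ∈ W, f z = f x → z = x)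
    {x₀ : E (n + 2)} (hx₀ : x₀ ∈ D) {H : E (n + 2) → E 2} (hH : ContDiffAt ℝ 1 H (f x₀))
    (hs : Function.Surjective (fderiv ℝ H (f x₀))) (h0 : H (f x₀) = 0)
    (hoff : ∀ x ∈ D, H (f x) ≠ 0 → (∃ W ∈ nhds x, InjOn f W) ∧ DifferentiableAt ℝ f x ∧
      (fderiv ℝ f x).det ≠ 0 ∧ ∀ h : E (n + 2), ‖h‖ = 1 →
        |(fderiv ℝ f x).det| ≤ K * ‖fderiv ℝ f x h‖ ^ (n + 2))
    (m : ℕ) (hm : ∀ W ∈ nhds x₀, ∃ y, (m : ℕ∞) ≤ (W ∩ f ⁻¹' {y}).encard) :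
    m * (1 - 18 / (5 * ((n : ℝ) + 1))) ≤ K := by
  obtain ⟨Φ, R, hΦ, hR, hax⟩ := exists_straight hH hs
  have hlim : Filter.Tendsto (fun δ : ℝ => (1 + δ) * K / (1 - δ) ^ (n + 2))
      (nhdsWithin 0 (Ioi 0)) (nhds K) := by
    have h1 : ContinuousAt (fun δ : ℝ => (1 + δ) * K / (1 - δ) ^ (n + 2)) 0 := by
      have h2 : ContinuousAt (fun δ : ℝ => (1 + δ) * K) 0 := by fun_prop
      have h3 : ContinuousAt (fun δ : ℝ => (1 - δ) ^ (n + 2)) 0 := by fun_prop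
      exact h2.div h3 (by simp)
    have h2 : Filter.Tendsto (fun δ : ℝ => (1 + δ) * K / (1 - δ) ^ (n + 2))
        (nhdsWithin 0 (Ioi 0)) (nhds ((1 + 0) * K / (1 - 0) ^ (n + 2))) :=
      h1.tendsto.mono_left nhdsWithin_le_nhds
    have h3 : (1 + 0) * K / (1 - 0) ^ (n + 2) = K := by
      rw [add_zero, sub_zero, one_pow, one_mul, div_one]
    rw [h3] at h2
    exact h2
  refine ge_of_tendsto hlim ?_
  filter_upwards [Ioo_mem_nhdsGT (show (0 : ℝ) < 1 by norm_num)] with δ hδ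
  exact Gen_step hn hD hc ho hdisc hx₀ h0 hoff m hm hΦ hR hax hδ.1 hδ.2

end MB
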