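import Pool.Agent.H16.MT.TDefs
import Pool.Agent.H86.Brouwer

/-!
Row Inv (MP_c844e7, about 230 lines).  Invariance of domain, from `Pool.Agent.H86.exists_zero_of_eq_id` (Brouwer; file Pool/Agent/H86/Brouwer.lean, proved).

PROOF.
`stable_zero`: define `R' x = x` for `‖x‖ ≥ 2`, `R' x = x + (2 - ‖x‖) • (g u - u)`, `u = x/‖x‖`, for `1 ≤ ‖x‖ ≤ 2`, `R' x = g x` for `‖x‖ ≤ 1`: continuous (pieces agree for `‖x‖ = 1`: `x + (g x - x) = g x`, and for
`‖x‖ = 2`).  For `‖x‖ ≥ 1`: `‖R' x‖ ≥ 1 - 1/2 > 0`.  `R x = (1/2) • R' (2 • x)` is continuous, the identity for `‖x‖ ≥ 1`, so it has a zero (`exists_zero_of_eq_id`), which gives a zero of `R'`, hence of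
`g` in the ball.  (A simpler formula for the gluing: `π x = (max 1 ‖x‖)⁻¹ • x` is the retraction on the ball, `R' x = x + max 0 (min 1 (2 - ‖x‖)) • (g (π x) - π x)` for all `x`; continuous because `g ∘ π` is.)

`inv_dom_ball`: `B = closedBall 0 1`, `K = f '' B` compact; `f : B → K` is a homeomorphism (compact/Hausdorff), so there is `G` continuous on the whole space with `G (f x) = x` for `x ∈ B` (Tietze:
`ContinuousMap.exists_restrict_eq` / `ContinuousMap.exists_extension`, with the instance `TietzeExtension` of the finite-dimensional space `E (n+2)`).  `G (f 0) = 0`.  Assume `K ∉ 𝓝 (f 0)`.  Choose `ε > 0` with `‖G y‖ ≤ 1/10` for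
`‖y - f 0‖ ≤ 2ε`; there is `c ∉ K` with `‖c - f 0‖ < ε`; so `‖G y‖ ≤ 1/10` for `‖y - c‖ ≤ ε`, and `‖f 0 - c‖ < ε`.  Let `Σ₁ = {y ∈ K : ε ≤ ‖y - c‖}` (compact) and `Σ₂ = sphere c ε`.  For `y = f x ∈ Σ₁`: `G y = x ≠ 0`
(otherwise `y = f 0`).  So there is `0 < δ ≤ 1/10` with `2δ ≤ ‖G y‖` on `Σ₁` (minimum of a continuous function on a compact set; if `Σ₁ = ∅` take `δ = 1/10`).  `Continuous.exists_contDiff_approx` (used in
H86/Brouwer.lean) gives `Q` of class `C¹` with `‖Q y - G y‖ < δ` for all `y`.  `Q '' Σ₂` is a null set (`MeasureTheory.addHaar_image_eq_zero_of_differentiableOn_of_addHaar_eq_zero`, `Measure.addHaar_sphere`), so there is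
`v ∉ Q '' Σ₂` with `‖v‖ < δ` (the ball has positive measure).  `Q' y = Q y - v` does not vanish on `Σ₂`; nor on `Σ₁`: `‖Q y‖ > 2δ - δ = δ > ‖v‖`.  Let `Φ y = c + max (ε/‖y-c‖) 1 • (y - c)`: continuous on `K`
(`c ∉ K`), with values in `Σ₂` if `‖y - c‖ ≤ ε`, `= y ∈ Σ₁` if `y ∈ K`, `‖y - c‖ ≥ ε`.  `g x = Q' (Φ (f x))`, continuous on `B`, and `‖g x - x‖ ≤ 1/2`: with `y = f x`, `x = G y`; if `‖y - c‖ ≥ ε`:
`‖Q y - v - G y‖ < 2δ ≤ 1/5`; otherwise `‖G y‖ ≤ 1/10`, `‖G (Φ y)‖ ≤ 1/10`, `‖g x‖ ≤ ‖G (Φ y)‖ + 2δ ≤ 3/10`, total `≤ 4/10`.  `stable_zero` gives a zero of `Q'` on `Σ₁ ∪ Σ₂`: contradiction.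

`inv_dom`: for `x ∈ U` choose `ρ > 0` with `closedBall x ρ ⊆ U`, apply `inv_dom_ball` to `y ↦ f (x + ρ • y)`: `f '' U ∈ 𝓝 (f x)`.
-/

set_option autoImplicit false

open MeasureTheory Set

namespace MB

theorem stable_zero {n : ℕ} (g : E (n + 2) → E (n + 2))
    (hg : ContinuousOn g (Metric.closedBall 0 1))
    (h : ∀ x ∈ Metric.closedBall (0 : E (n + 2)) 1, ‖g x - x‖ ≤ 1 / 2) :
    ∃ x ∈ Metric.closedBall (0 : E (n + 2)) 1, g x = 0 := by
  obtain ⟨π, hπ⟩ : ∃ π : E (n + 2) → E (n + 2), π = fun x => (max 1 ‖x‖)⁻¹ • x := ⟨_, rfl⟩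
  have hmax : ∀ x : E (n + 2), 0 < max 1 ‖x‖ := fun x => lt_of_lt_of_le one_pos (le_max_left _ _)
  have hπc : Continuous π := by
    rw [hπ]
    exact ((continuous_const.max continuous_norm).inv₀ fun x => (hmax x).ne').smul continuous_id
  have hπm : ∀ x, π x ∈ Metric.closedBall (0 : E (n + 2)) 1 := by
    intro x
    rw [mem_closedBall_zero_iff, hπ]
    show ‖(max 1 ‖x‖)⁻¹ • x‖ ≤ 1
    rw [norm_smul, norm_inv, Real.norm_eq_abs, abs_of_pos (hmax x), inv_mul_le_iff₀ (hmax x),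
      mul_one]
    exact le_max_right _ _
  have hπ1 : ∀ x, ‖x‖ ≤ 1 → π x = x := by
    intro x hx
    rw [hπ]
    show (max 1 ‖x‖)⁻¹ • x = x
    rw [max_eq_left hx, inv_one, one_smul]
  have hgπ : Continuous fun x => g (π x) := hg.comp_continuous hπc hπm
  obtain ⟨R', hR'⟩ : ∃ R' : E (n + 2) → E (n + 2),
      R' = fun x => x + max 0 (min 1 (2 - ‖x‖)) • (g (π x) - π x) := ⟨_, rfl⟩
  have hR'c : Continuous R' := by
    rw [hR']
    exact continuous_id.add ((continuous_const.max (continuous_const.min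
      (continuous_const.sub continuous_norm))).smul (hgπ.sub hπc))
  obtain ⟨x, hx⟩ := Pool.Agent.H86.exists_zero_of_eq_id (fun x => (1 / 2 : ℝ) • R' ((2 : ℝ) • x))
    ((hR'c.comp (continuous_const_smul (2 : ℝ))).const_smul (1 / 2 : ℝ)) (by
      intro x hx
      have h1 : ‖(2 : ℝ) • x‖ = 2 * ‖x‖ := by
        rw [norm_smul, Real.norm_eq_abs, abs_of_pos two_pos]
      have h2 : max (0 : ℝ) (min 1 (2 - ‖(2 : ℝ) • x‖)) = 0 := by
        rw [h1]
        refine max_eq_left (min_le_of_right_le ?_)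
        linarith
      show (1 / 2 : ℝ) • R' ((2 : ℝ) • x) = x
      rw [hR']
      show (1 / 2 : ℝ) • ((2 : ℝ) • x + max 0 (min 1 (2 - ‖(2 : ℝ) • x‖)) • _) = x
      rw [h2, zero_smul, add_zero, smul_smul]
      norm_num)
  have hy : R' ((2 : ℝ) • x) = 0 := by
    rcases smul_eq_zero.1 hx with h1 | h1
    · norm_num at h1
    · exact h1
  obtain ⟨y, hyx⟩ : ∃ y : E (n + 2), y = (2 : ℝ) • x := ⟨_, rfl⟩
  rw [← hyx] at hy
  rcases le_or_gt ‖y‖ 1 with h1 | h1
  · refine ⟨y, mem_closedBall_zero_iff.2 h1, ?_⟩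
    rw [hR'] at hy
    have h2 : y + max 0 (min 1 (2 - ‖y‖)) • (g (π y) - π y) = 0 := hy
    have h3 : max (0 : ℝ) (min 1 (2 - ‖y‖)) = 1 := by
      rw [min_eq_left (by linarith), max_eq_right zero_le_one]
    rw [h3, one_smul, hπ1 y h1, add_sub_cancel] at h2
    exact h2
  · exfalso
    rw [hR'] at hy
    have h2 : y + max 0 (min 1 (2 - ‖y‖)) • (g (π y) - π y) = 0 := hy
    obtain ⟨c, hc⟩ : ∃ c : ℝ, c = max 0 (min 1 (2 - ‖y‖)) := ⟨_, rfl⟩
    rw [← hc] at h2
    have hc0 : 0 ≤ c := by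
      rw [hc]
      exact le_max_left _ _
    have hc1 : c ≤ 1 := by
      rw [hc]
      exact max_le zero_le_one (min_le_left _ _)
    have h3 := h (π y) (hπm y)
    have h4 : y = -(c • (g (π y) - π y)) := eq_neg_of_add_eq_zero_left h2
    have h5 : ‖y‖ ≤ 1 / 2 := by
      rw [h4, norm_neg, norm_smul, Real.norm_eq_abs, abs_of_nonneg hc0]
      nlinarith [norm_nonneg (g (π y) - π y)]
    linarith

theorem Inv_ext {n : ℕ} (f : E (n + 2) → E (n + 2))
    (hc : ContinuousOn f (Metric.closedBall 0 1)) (hi : InjOn f (Metric.closedBall 0 1)) :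
    ∃ G : E (n + 2) → E (n + 2), Continuous G ∧
      ∀ x ∈ Metric.closedBall (0 : E (n + 2)) 1, G (f x) = x := by
  obtain ⟨B, hB⟩ : ∃ B : Set (E (n + 2)), B = Metric.closedBall (0 : E (n + 2)) 1 := ⟨_, rfl⟩
  rw [← hB] at hc hi ⊢
  have : CompactSpace B := by
    rw [← isCompact_iff_compactSpace, hB]
    exact isCompact_closedBall _ _
  have h1 : Continuous (B.domRestrict f) := continuousOn_iff_continuous_domRestrict.1 hc
  have h2 : Function.Injective (B.domRestrict f) := injOn_iff_injective.1 hi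
  have h3 := h1.isClosedEmbedding h2
  obtain ⟨G, hG⟩ := ContinuousMap.exists_extension h3
    (⟨fun x : B => (x : E (n + 2)), continuous_subtype_val⟩ : C(B, E (n + 2)))
  refine ⟨G, G.continuous, fun x hx => ?_⟩
  have h4 := congrArg (fun F : C(B, E (n + 2)) => F ⟨x, hx⟩) hG
  exact h4

theorem Inv_avoid {n : ℕ} (Q : E (n + 2) → E (n + 2)) (hQ : ContDiff ℝ 1 Q) (c : E (n + 2))
    {ε δ : ℝ} (hε : 0 < ε) (hδ : 0 < δ) :
    ∃ v : E (n + 2), ‖v‖ < δ ∧ ∀ y ∈ Metric.sphere c ε, Q y ≠ v := by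
  by_contra hcon
  push Not at hcon
  have h1 : Metric.ball (0 : E (n + 2)) δ ⊆ Q '' Metric.sphere c ε := by
    intro v hv
    obtain ⟨y, hy, hyv⟩ := hcon v (mem_ball_zero_iff.1 hv)
    exact ⟨y, hy, hyv⟩
  have h2 : (volume : Measure (E (n + 2))) (Q '' Metric.sphere c ε) = 0 :=
    addHaar_image_eq_zero_of_differentiableOn_of_addHaar_eq_zero volume
      ((hQ.differentiable one_ne_zero).differentiableOn)
      (Measure.addHaar_sphere_of_ne_zero volume c hε.ne')
  have h3 : (volume : Measure (E (n + 2))) (Metric.ball (0 : E (n + 2)) δ) = 0 :=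
    measure_mono_null h1 h2
  exact (Metric.measure_ball_pos volume (0 : E (n + 2)) hδ).ne' h3

theorem inv_dom_ball {n : ℕ} (f : E (n + 2) → E (n + 2))
    (hc : ContinuousOn f (Metric.closedBall 0 1)) (hi : InjOn f (Metric.closedBall 0 1)) :
    f '' Metric.closedBall 0 1 ∈ nhds (f 0) := by
  obtain ⟨G, hGc, hG⟩ := Inv_ext f hc hi
  have h0B : (0 : E (n + 2)) ∈ Metric.closedBall (0 : E (n + 2)) 1 := by
    rw [mem_closedBall_zero_iff, norm_zero]
    exact zero_le_one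
  obtain ⟨K, hK⟩ : ∃ K : Set (E (n + 2)), K = f '' Metric.closedBall 0 1 := ⟨_, rfl⟩
  have hKc : IsCompact K := by
    rw [hK]
    exact (isCompact_closedBall _ _).image_of_continuousOn hc
  rw [← hK]
  by_contra hcon
  -- the radius
  have hG0 : G (f 0) = 0 := hG 0 h0B
  obtain ⟨ε, hε, hε1⟩ : ∃ ε : ℝ, 0 < ε ∧ ∀ y, ‖y - f 0‖ ≤ 2 * ε → ‖G y‖ ≤ 1 / 10 := by
    obtain ⟨η, hη, h1⟩ := Metric.continuous_iff.1 hGc (f 0) (1 / 10) (by norm_num)
    refine ⟨η / 4, by linarith, fun y hy => ?_⟩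
    have h2 := h1 y (by
      rw [dist_eq_norm]
      linarith)
    rw [hG0, dist_zero_right] at h2
    exact h2.le
  obtain ⟨c, hcK, hcf⟩ : ∃ c, c ∉ K ∧ ‖c - f 0‖ < ε := by
    by_contra hno
    push Not at hno
    refine hcon (Filter.mem_of_superset (Metric.ball_mem_nhds (f 0) hε) fun y hy => ?_)
    by_contra hyK
    rw [Metric.mem_ball, dist_eq_norm] at hy
    exact absurd hy (not_lt.2 (hno y hyK))
  -- the minimum on the far part
  obtain ⟨δ, hδ, hδ1, hδ2⟩ : ∃ δ : ℝ, 0 < δ ∧ δ ≤ 1 / 10 ∧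
      ∀ y ∈ K, ε ≤ ‖y - c‖ → 2 * δ ≤ ‖G y‖ := by
    have h1 : IsCompact (K ∩ {y | ε ≤ ‖y - c‖}) :=
      hKc.inter_right (isClosed_le continuous_const (continuous_id.sub continuous_const).norm)
    rcases (K ∩ {y | ε ≤ ‖y - c‖}).eq_empty_or_nonempty with h2 | h2
    · refine ⟨1 / 10, by norm_num, le_rfl, fun y hy hy1 => ?_⟩
      have h3 : y ∈ K ∩ {y | ε ≤ ‖y - c‖} := ⟨hy, hy1⟩
      rw [h2] at h3
      exact absurd h3 (notMem_empty y)
    · obtain ⟨y0, hy0, hmin⟩ := h1.exists_isMinOn h2 hGc.norm.continuousOn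
      have h3 : 0 < ‖G y0‖ := by
        rw [norm_pos_iff]
        intro h4
        have h5 := hy0.1
        rw [hK] at h5
        obtain ⟨x, hx, hxy⟩ := h5
        have h6 : x = 0 := by rw [← hG x hx, hxy, h4]
        have h7 : ε ≤ ‖y0 - c‖ := hy0.2
        rw [← hxy, h6, norm_sub_rev] at h7
        exact absurd hcf (not_lt.2 h7)
      refine ⟨min (1 / 10) (‖G y0‖ / 2), lt_min (by norm_num) (by linarith), min_le_left _ _,
        fun y hy hy1 => ?_⟩
      have h4 : ‖G y0‖ ≤ ‖G y‖ := hmin ⟨hy, hy1⟩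
      have h5 := min_le_right (1 / 10) (‖G y0‖ / 2)
      linarith
  -- the approximation
  obtain ⟨Q, hQ, hQd, -⟩ := Continuous.exists_contDiff_approx (f := G) (ε := fun _ => δ) 1 hGc
    continuous_const (fun _ => hδ)
  have hQG : ∀ y, ‖Q y - G y‖ < δ := by
    intro y
    have h1 := hQd y
    rwa [dist_eq_norm] at h1
  obtain ⟨v, hv, hvS⟩ := Inv_avoid Q hQ c hε hδ
  obtain ⟨Φ, hΦ⟩ : ∃ Φ : E (n + 2) → E (n + 2),
      Φ = fun y => c + max (ε / ‖y - c‖) 1 • (y - c) := ⟨_, rfl⟩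
  have hne : ∀ y ∈ K, 0 < ‖y - c‖ := by
    intro y hy
    rw [norm_pos_iff, sub_ne_zero]
    rintro rfl
    exact hcK hy
  have hΦc : ContinuousOn Φ K := by
    rw [hΦ]
    have h1 : ContinuousOn (fun y : E (n + 2) => y - c) K :=
      (continuous_id.sub continuous_const).continuousOn
    have h2 : ContinuousOn (fun y : E (n + 2) => ε / ‖y - c‖) K :=
      ContinuousOn.div₀ continuousOn_const h1.norm fun y hy => (hne y hy).ne'
    have h3 : ContinuousOn (fun y : E (n + 2) => max (ε / ‖y - c‖) 1) K :=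
      ContinuousOn.sup h2 continuousOn_const
    exact continuousOn_const.add (h3.smul h1)
  have hΦ1 : ∀ y ∈ K, ε ≤ ‖y - c‖ → Φ y = y := by
    intro y hy h1
    rw [hΦ]
    show c + max (ε / ‖y - c‖) 1 • (y - c) = y
    rw [max_eq_right ((div_le_one (hne y hy)).2 h1), one_smul, add_sub_cancel]
  have hΦ2 : ∀ y ∈ K, ‖y - c‖ < ε → Φ y ∈ Metric.sphere c ε := by
    intro y hy h1
    have h2 : 1 ≤ ε / ‖y - c‖ := (one_le_div (hne y hy)).2 h1.le
    rw [mem_sphere_iff_norm, hΦ]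
    show ‖c + max (ε / ‖y - c‖) 1 • (y - c) - c‖ = ε
    rw [max_eq_left h2, add_sub_cancel_left, norm_smul, Real.norm_eq_abs,
      abs_of_nonneg (zero_le_one.trans h2), div_mul_cancel₀ _ (hne y hy).ne']
  have hmem : ∀ x ∈ Metric.closedBall (0 : E (n + 2)) 1, f x ∈ K := by
    intro x hx
    rw [hK]
    exact ⟨x, hx, rfl⟩
  obtain ⟨x, hx, hx0⟩ := stable_zero (fun x => Q (Φ (f x)) - v)
    ((hQ.continuous.comp_continuousOn (hΦc.comp hc hmem)).sub continuousOn_const) (by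
      intro x hx
      show ‖Q (Φ (f x)) - v - x‖ ≤ 1 / 2
      have hy := hmem x hx
      rcases le_or_gt ε ‖f x - c‖ with h1 | h1
      · rw [hΦ1 _ hy h1]
        have h2 : Q (f x) - v - x = (Q (f x) - G (f x)) - v := by
          rw [hG x hx]
          abel
        rw [h2]
        have h3 := norm_sub_le (Q (f x) - G (f x)) v
        have h4 := hQG (f x)
        linarith
      · have h2 : ‖x‖ ≤ 1 / 10 := by
          have h3 := hε1 (f x) (by
            have h4 : f x - f 0 = (f x - c) + (c - f 0) := by abel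
            rw [h4]
            have h5 := norm_add_le (f x - c) (c - f 0)
            linarith)
          rwa [hG x hx] at h3
        have h3 : ‖G (Φ (f x))‖ ≤ 1 / 10 := by
          refine hε1 _ ?_
          have h4 : Φ (f x) - f 0 = (Φ (f x) - c) + (c - f 0) := by abel
          rw [h4]
          have h5 := norm_add_le (Φ (f x) - c) (c - f 0)
          have h6 := mem_sphere_iff_norm.1 (hΦ2 _ hy h1)
          linarith
        have h4 : Q (Φ (f x)) - v - x = (Q (Φ (f x)) - G (Φ (f x))) + (G (Φ (f x)) - v - x) := by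
          abel
        rw [h4]
        have h5 := norm_add_le (Q (Φ (f x)) - G (Φ (f x))) (G (Φ (f x)) - v - x)
        have h6 := norm_sub_le (G (Φ (f x)) - v) x
        have h7 := norm_sub_le (G (Φ (f x))) v
        have h8 := hQG (Φ (f x))
        linarith)
  have hy := hmem x hx
  have hQv : Q (Φ (f x)) = v := sub_eq_zero.1 hx0
  rcases le_or_gt ε ‖f x - c‖ with h1 | h1
  · rw [hΦ1 _ hy h1] at hQv
    have h2 := hδ2 _ hy h1
    have h3 := hQG (f x)
    rw [hQv] at h3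
    have h4 : ‖G (f x)‖ ≤ ‖v - G (f x)‖ + ‖v‖ := by
      have h5 := norm_sub_le v (v - G (f x))
      rw [sub_sub_cancel] at h5
      linarith
    linarith
  · exact hvS _ (hΦ2 _ hy h1) hQv

theorem inv_dom {n : ℕ} (f : E (n + 2) → E (n + 2)) (U : Set (E (n + 2))) (hU : IsOpen U)
    (hc : ContinuousOn f U) (hi : InjOn f U) : IsOpen (f '' U) := by
  rw [isOpen_iff_mem_nhds]
  rintro _ ⟨x, hx, rfl⟩
  obtain ⟨ρ, hρ, hρU⟩ := Metric.nhds_basis_closedBall.mem_iff.1 (hU.mem_nhds hx)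
  have hmaps : MapsTo (fun y : E (n + 2) => x + ρ • y) (Metric.closedBall 0 1) U := by
    intro y hy
    refine hρU ?_
    rw [mem_closedBall_zero_iff] at hy
    rw [mem_closedBall_iff_norm]
    show ‖x + ρ • y - x‖ ≤ ρ
    rw [add_sub_cancel_left, norm_smul, Real.norm_eq_abs, abs_of_pos hρ]
    nlinarith
  have h1 := inv_dom_ball (fun y => f (x + ρ • y))
    (hc.comp (continuous_const.add (continuous_const_smul ρ)).continuousOn hmaps) (by
      intro y hy z hz hyz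
      have h2 := hi (hmaps hy) (hmaps hz) hyz
      have h3 : ρ • y = ρ • z := add_left_cancel h2
      exact smul_right_injective _ hρ.ne' h3)
  rw [smul_zero, add_zero] at h1
  refine Filter.mem_of_superset h1 ?_
  rintro _ ⟨y, hy, rfl⟩
  exact ⟨x + ρ • y, hmaps hy, rfl⟩

end MB
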