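import Pool.Agent.H16.MT.TDefs

/-!
Row PcA (MP_c844e7, about 130 lines).  Algebra of the polar map `pc`, the shifts `sh`, the multiplication `sk` and the winding map.

PROOF.  Coordinatewise computations (`PiLp.ext` / `ext i`, cases `i = 0`, `i = 1`, other).
`pc_not_ax`: `cos` and `sin` do not vanish together and `exp > 0`.  `pc_surj`: for `z = ⟨y 0, y 1⟩ : ℂ`, `z ≠ 0`, take `q 0 = log ‖z‖`, `q 1 = arg z`, other coordinates of `y` (`Complex.norm_mul_cos_arg`, `Complex.norm_mul_sin_arg`).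
`pc_eq_iff`: squaring and adding the coordinates `0, 1`: `exp (2 q 0)` is equal for both, so `q 0 = q' 0`; then `cos`, `sin` of `q 1` and `q' 1` agree: `Real.Angle.angle_eq_iff_two_pi_dvd_sub` with `Real.Angle.cos_sin_inj`
or `Complex.exp_eq_exp_iff_exists_int`.
`winding_pc`: with `z = e^s e^{iθ}`, `z^k/‖z‖^(k-1) = e^s e^{ikθ}` (`‖z‖ = e^s`, `(e^s)^k/(e^s)^(k-1) = e^s` as `k ≥ 1`; `Complex.cos_add_sin_mul_I_pow` or `← Complex.exp_nat_mul`).
-/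

set_option autoImplicit false

open MeasureTheory Set

namespace MB

variable {n : ℕ}

theorem PcA_10 : (1 : Fin (n + 2)) ≠ 0 := by
  intro h
  have := congrArg Fin.val h
  simp at this

theorem PcA_01 : (0 : Fin (n + 2)) ≠ 1 := fun h => PcA_10 h.symm

theorem PcA_pc0 (q : E (n + 2)) : pc q 0 = Real.exp (q 0) * Real.cos (q 1) := by
  show (if (0 : Fin (n + 2)) = 0 then Real.exp (q 0) * Real.cos (q 1)
    else if (0 : Fin (n + 2)) = 1 then Real.exp (q 0) * Real.sin (q 1) else q 0) = _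
  rw [if_pos rfl]

theorem PcA_pc1 (q : E (n + 2)) : pc q 1 = Real.exp (q 0) * Real.sin (q 1) := by
  show (if (1 : Fin (n + 2)) = 0 then Real.exp (q 0) * Real.cos (q 1)
    else if (1 : Fin (n + 2)) = 1 then Real.exp (q 0) * Real.sin (q 1) else q 1) = _
  rw [if_neg PcA_10, if_pos rfl]

theorem PcA_pci (q : E (n + 2)) {i : Fin (n + 2)} (h0 : i ≠ 0) (h1 : i ≠ 1) : pc q i = q i := by
  show (if i = 0 then Real.exp (q 0) * Real.cos (q 1)
    else if i = 1 then Real.exp (q 0) * Real.sin (q 1) else q i) = _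
  rw [if_neg h0, if_neg h1]

theorem PcA_sh1 (j : ℤ) (q : E (n + 2)) : sh j q 1 = q 1 + 2 * Real.pi * j := by
  show (if (1 : Fin (n + 2)) = 1 then q 1 + 2 * Real.pi * j else q 1) = _
  rw [if_pos rfl]

theorem PcA_shi (j : ℤ) (q : E (n + 2)) {i : Fin (n + 2)} (h1 : i ≠ 1) : sh j q i = q i := by
  show (if i = 1 then q 1 + 2 * Real.pi * j else q i) = _
  rw [if_neg h1]

theorem PcA_sk1 (k : ℕ) (q : E (n + 2)) : sk k q 1 = k * q 1 := by
  show (if (1 : Fin (n + 2)) = 1 then (k : ℝ) * q 1 else q 1) = _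
  rw [if_pos rfl]

theorem PcA_ski (k : ℕ) (q : E (n + 2)) {i : Fin (n + 2)} (h1 : i ≠ 1) : sk k q i = q i := by
  show (if i = 1 then (k : ℝ) * q 1 else q i) = _
  rw [if_neg h1]

theorem pc_not_ax (q : E (n + 2)) : ¬ ax (pc q) := by
  rintro ⟨h0, h1⟩
  rw [PcA_pc0] at h0
  rw [PcA_pc1] at h1
  have e0 : Real.cos (q 1) = 0 := by
    rcases mul_eq_zero.1 h0 with h | h
    · exact absurd h (Real.exp_pos _).ne'
    · exact h
  have e1 : Real.sin (q 1) = 0 := by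
    rcases mul_eq_zero.1 h1 with h | h
    · exact absurd h (Real.exp_pos _).ne'
    · exact h
  have := Real.sin_sq_add_cos_sq (q 1)
  rw [e0, e1] at this
  norm_num at this

theorem pc_surj (y : E (n + 2)) (hy : ¬ ax y) : ∃ q : E (n + 2), pc q = y := by
  have hz : (⟨y 0, y 1⟩ : ℂ) ≠ 0 := by
    intro h
    apply hy
    have h0 := congrArg Complex.re h
    have h1 := congrArg Complex.im h
    exact ⟨h0, h1⟩
  let q : E (n + 2) := WithLp.toLp 2 fun i => if i = 0 then Real.log ‖(⟨y 0, y 1⟩ : ℂ)‖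
    else if i = 1 then Complex.arg ⟨y 0, y 1⟩ else y i
  have q0 : q 0 = Real.log ‖(⟨y 0, y 1⟩ : ℂ)‖ := by
    show (if (0 : Fin (n + 2)) = 0 then Real.log ‖(⟨y 0, y 1⟩ : ℂ)‖
      else if (0 : Fin (n + 2)) = 1 then Complex.arg ⟨y 0, y 1⟩ else y 0) = _
    rw [if_pos rfl]
  have q1 : q 1 = Complex.arg ⟨y 0, y 1⟩ := by
    show (if (1 : Fin (n + 2)) = 0 then Real.log ‖(⟨y 0, y 1⟩ : ℂ)‖
      else if (1 : Fin (n + 2)) = 1 then Complex.arg ⟨y 0, y 1⟩ else y 1) = _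
    rw [if_neg PcA_10, if_pos rfl]
  have he : Real.exp (Real.log ‖(⟨y 0, y 1⟩ : ℂ)‖) = ‖(⟨y 0, y 1⟩ : ℂ)‖ :=
    Real.exp_log (norm_pos_iff.2 hz)
  refine ⟨q, ?_⟩
  ext i
  by_cases h0 : i = 0
  · rw [h0, PcA_pc0, q0, q1, he]
    exact Complex.norm_mul_cos_arg _
  · by_cases h1 : i = 1
    · rw [h1, PcA_pc1, q0, q1, he]
      exact Complex.norm_mul_sin_arg _
    · rw [PcA_pci q h0 h1]
      show (if i = 0 then Real.log ‖(⟨y 0, y 1⟩ : ℂ)‖
        else if i = 1 then Complex.arg ⟨y 0, y 1⟩ else y i) = _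
      rw [if_neg h0, if_neg h1]

theorem pc_sh (j : ℤ) (q : E (n + 2)) : pc (sh j q) = pc q := by
  have e : q 1 + 2 * Real.pi * j = q 1 + j * (2 * Real.pi) := by ring
  ext i
  by_cases h0 : i = 0
  · rw [h0, PcA_pc0, PcA_pc0, PcA_sh1, PcA_shi j q PcA_01, e, Real.cos_add_int_mul_two_pi]
  · by_cases h1 : i = 1
    · rw [h1, PcA_pc1, PcA_pc1, PcA_sh1, PcA_shi j q PcA_01, e, Real.sin_add_int_mul_two_pi]
    · rw [PcA_pci _ h0 h1, PcA_pci _ h0 h1, PcA_shi j q h1]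

theorem pc_eq_iff (q q' : E (n + 2)) : pc q = pc q' ↔ ∃ j : ℤ, q' = sh j q := by
  constructor
  · intro h
    have h0 : pc q 0 = pc q' 0 := by rw [h]
    have h1 : pc q 1 = pc q' 1 := by rw [h]
    rw [PcA_pc0, PcA_pc0] at h0
    rw [PcA_pc1, PcA_pc1] at h1
    have hsq : Real.exp (q 0) ^ 2 = Real.exp (q' 0) ^ 2 := by
      have c1 := Real.sin_sq_add_cos_sq (q 1)
      have c2 := Real.sin_sq_add_cos_sq (q' 1)
      calc Real.exp (q 0) ^ 2 = (Real.exp (q 0) * Real.cos (q 1)) ^ 2 +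
            (Real.exp (q 0) * Real.sin (q 1)) ^ 2 := by
            linear_combination (-(Real.exp (q 0)) ^ 2) * c1
        _ = (Real.exp (q' 0) * Real.cos (q' 1)) ^ 2 +
            (Real.exp (q' 0) * Real.sin (q' 1)) ^ 2 := by rw [h0, h1]
        _ = Real.exp (q' 0) ^ 2 := by
            linear_combination ((Real.exp (q' 0)) ^ 2) * c2
    have he : Real.exp (q 0) = Real.exp (q' 0) :=
      (sq_eq_sq₀ (Real.exp_pos _).le (Real.exp_pos _).le).1 hsq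
    have hq0 : q 0 = q' 0 := Real.exp_injective he
    rw [← he] at h0 h1
    have hc := mul_left_cancel₀ (Real.exp_pos _).ne' h0
    have hs := mul_left_cancel₀ (Real.exp_pos _).ne' h1
    obtain ⟨j, hj⟩ := Real.Angle.angle_eq_iff_two_pi_dvd_sub.1
      (Real.Angle.cos_sin_inj hc.symm hs.symm)
    refine ⟨j, ?_⟩
    ext i
    by_cases hi1 : i = 1
    · rw [hi1, PcA_sh1]
      linarith
    · rw [PcA_shi j q hi1]
      by_cases hi0 : i = 0
      · rw [hi0, hq0]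
      · have hi : pc q i = pc q' i := by rw [h]
        rw [PcA_pci _ hi0 hi1, PcA_pci _ hi0 hi1] at hi
        exact hi.symm
  · rintro ⟨j, rfl⟩
    rw [pc_sh]

theorem sh_zero (q : E (n + 2)) : sh 0 q = q := by
  ext i
  by_cases h1 : i = 1
  · rw [h1, PcA_sh1]
    push_cast
    ring
  · rw [PcA_shi 0 q h1]

theorem sh_sh (i j : ℤ) (q : E (n + 2)) : sh i (sh j q) = sh (i + j) q := by
  ext l
  by_cases h1 : l = 1
  · rw [h1, PcA_sh1, PcA_sh1, PcA_sh1]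
    push_cast
    ring
  · rw [PcA_shi _ _ h1, PcA_shi _ _ h1, PcA_shi _ _ h1]

theorem sk_sh (k : ℕ) (j : ℤ) (q : E (n + 2)) : sk k (sh j q) = sh (k * j) (sk k q) := by
  ext l
  by_cases h1 : l = 1
  · rw [h1, PcA_sk1, PcA_sh1, PcA_sh1, PcA_sk1]
    push_cast
    ring
  · rw [PcA_ski _ _ h1, PcA_shi _ _ h1, PcA_shi _ _ h1, PcA_ski _ _ h1]

theorem sk_inj {k : ℕ} (hk : 1 ≤ k) (q q' : E (n + 2)) (h : sk k q = sk k q') : q = q' := by
  ext l
  by_cases h1 : l = 1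
  · have h2 : sk k q 1 = sk k q' 1 := by rw [h]
    rw [PcA_sk1, PcA_sk1] at h2
    rw [h1]
    exact mul_left_cancel₀ (Nat.cast_ne_zero.2 (by omega)) h2
  · have h2 : sk k q l = sk k q' l := by rw [h]
    rwa [PcA_ski _ _ h1, PcA_ski _ _ h1] at h2

theorem PcA_pow {k : ℕ} (hk : 1 ≤ k) (s t : ℝ) :
    ((⟨Real.exp s * Real.cos t, Real.exp s * Real.sin t⟩ : ℂ) ^ k /
      (‖(⟨Real.exp s * Real.cos t, Real.exp s * Real.sin t⟩ : ℂ)‖ : ℂ) ^ (k - 1)) =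
      ((Real.exp s : ℝ) : ℂ) * Complex.exp ((((k : ℝ) * t : ℝ) : ℂ) * Complex.I) := by
  have hz : (⟨Real.exp s * Real.cos t, Real.exp s * Real.sin t⟩ : ℂ) =
      ((Real.exp s : ℝ) : ℂ) * Complex.exp ((t : ℂ) * Complex.I) := by
    apply Complex.ext
    · rw [Complex.re_ofReal_mul, Complex.exp_ofReal_mul_I_re]
    · rw [Complex.im_ofReal_mul, Complex.exp_ofReal_mul_I_im]
  have hn : ‖(⟨Real.exp s * Real.cos t, Real.exp s * Real.sin t⟩ : ℂ)‖ = Real.exp s := by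
    rw [hz, norm_mul, Complex.norm_exp_ofReal_mul_I, mul_one, Complex.norm_real,
      Real.norm_of_nonneg (Real.exp_pos _).le]
  obtain ⟨m, rfl⟩ : ∃ m, k = m + 1 := ⟨k - 1, by omega⟩
  have he : ((Real.exp s : ℝ) : ℂ) ≠ 0 := by
    rw [Complex.ofReal_ne_zero]
    exact (Real.exp_pos _).ne'
  rw [hn, hz, Nat.add_sub_cancel, mul_pow, ← Complex.exp_nat_mul, pow_succ]
  have e2 : (((m + 1 : ℕ) : ℂ)) * ((t : ℂ) * Complex.I) =
      ((((m + 1 : ℕ) : ℝ) * t : ℝ) : ℂ) * Complex.I := by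
    push_cast
    ring
  rw [e2]
  field_simp

theorem winding_pc {k : ℕ} (hk : 1 ≤ k) (q : E (n + 2)) : winding k (pc q) = pc (sk k q) := by
  have hp := PcA_pow hk (q 0) (q 1)
  ext i
  by_cases h0 : i = 0
  · rw [h0, PcA_pc0, PcA_sk1, PcA_ski k q PcA_01]
    show (if (0 : Fin (n + 2)) = 0 then ((⟨pc q 0, pc q 1⟩ : ℂ) ^ k /
      (‖(⟨pc q 0, pc q 1⟩ : ℂ)‖ : ℂ) ^ (k - 1)).re
      else if (0 : Fin (n + 2)) = 1 then ((⟨pc q 0, pc q 1⟩ : ℂ) ^ k /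
      (‖(⟨pc q 0, pc q 1⟩ : ℂ)‖ : ℂ) ^ (k - 1)).im else pc q 0) = _
    rw [if_pos rfl, PcA_pc0, PcA_pc1, hp, Complex.re_ofReal_mul, Complex.exp_ofReal_mul_I_re]
  · by_cases h1 : i = 1
    · rw [h1, PcA_pc1, PcA_sk1, PcA_ski k q PcA_01]
      show (if (1 : Fin (n + 2)) = 0 then ((⟨pc q 0, pc q 1⟩ : ℂ) ^ k /
        (‖(⟨pc q 0, pc q 1⟩ : ℂ)‖ : ℂ) ^ (k - 1)).re
        else if (1 : Fin (n + 2)) = 1 then ((⟨pc q 0, pc q 1⟩ : ℂ) ^ k /
        (‖(⟨pc q 0, pc q 1⟩ : ℂ)‖ : ℂ) ^ (k - 1)).im else pc q 1) = _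
      rw [if_neg PcA_10, if_pos rfl, PcA_pc0, PcA_pc1, hp, Complex.im_ofReal_mul,
        Complex.exp_ofReal_mul_I_im]
    · rw [PcA_pci _ h0 h1, PcA_ski _ _ h1]
      show (if i = 0 then ((⟨pc q 0, pc q 1⟩ : ℂ) ^ k /
        (‖(⟨pc q 0, pc q 1⟩ : ℂ)‖ : ℂ) ^ (k - 1)).re
        else if i = 1 then ((⟨pc q 0, pc q 1⟩ : ℂ) ^ k /
        (‖(⟨pc q 0, pc q 1⟩ : ℂ)‖ : ℂ) ^ (k - 1)).im else pc q i) = _
      rw [if_neg h0, if_neg h1, PcA_pci _ h0 h1]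

end MB
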