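import Pool.Agent.H16.MT.PcA

/-!
Row PcB (MP_c844e7, about 140 lines).  Analysis of the polar map `pc` and of the set `Ut p r`.

PROOF.
`pc_cont`, `sh_cont`, `sk_cont`: coordinatewise (`continuous_pi`, `PiLp.continuous_toLp`, `fun_prop`; or `(PiLp.continuous_toLp 2 _).comp (continuous_pi …)`).
`Ut_open`: preimage of the ball.  For `ax p` (`p 0 = p 1 = 0`): `‖pc q - p‖² = exp (q 0)² + ∑_{i ≥ 2} (q i - p i)²` (`EuclideanSpace.norm_sq_eq`/`real_norm_sq_eq`, `Fin.sum_univ_succ` twice, `cos² + sin² = 1`) `= φ q`,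
`Ut p r = {q : φ q < r²}` for `r > 0` (for `r ≤ 0` it is empty).  `φ` is convex: `exp (2 t)` is convex, `(q i - p i)²` is convex; `ConvexOn.convex_lt`.  Since `φ` does not depend on `q 1`, `sh` and `sk` preserve `Ut`.
`Ut_nonempty`: `q 0 = log (r/2)`, `q 1 = 0`, `q i = p i`.
`pc_section`: with `θ₀ = q₀ 1`, for `y` near `y₀ = pc q₀`, put `s y = (log ‖z‖, θ₀ + arg (z e^{-iθ₀}), y'')`, `z = ⟨y 0, y 1⟩ : ℂ`.  At `y₀`: `z e^{-iθ₀} = e^{q₀ 0} > 0`, so `arg = 0` and `arg` is continuous there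
(`Complex.continuousAt_arg`, `slitPlane`), `log ‖z‖ = q₀ 0`: `s y₀ = q₀`.  For every `y` with `z ≠ 0` (true near `y₀`) `pc (s y) = y`: `‖z‖ e^{i(θ₀ + arg(z e^{-iθ₀}))} = ‖z‖ e^{iθ₀} (z e^{-iθ₀})/‖z‖ = z`.
-/

set_option autoImplicit false

open MeasureTheory Set

namespace MB

variable {n : ℕ}

theorem pc_cont : Continuous (pc (n := n)) := by
  have h0 : Continuous fun q : E (n + 2) => q 0 := by fun_prop
  have h1 : Continuous fun q : E (n + 2) => q 1 := by fun_prop
  unfold pc
  refine (PiLp.continuous_toLp 2 _).comp (continuous_pi fun i => ?_)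
  by_cases hi : i = 0
  · simp only [hi, if_true]
    exact (Real.continuous_exp.comp h0).mul (Real.continuous_cos.comp h1)
  · by_cases hi1 : i = 1
    · simp only [hi1, if_true, one_ne_zero, if_false]
      exact (Real.continuous_exp.comp h0).mul (Real.continuous_sin.comp h1)
    · simp only [hi, hi1, if_false]
      fun_prop

theorem sh_cont (j : ℤ) : Continuous (sh (n := n) j) := by
  have h1 : Continuous fun q : E (n + 2) => q 1 := by fun_prop
  unfold sh
  refine (PiLp.continuous_toLp 2 _).comp (continuous_pi fun i => ?_)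
  by_cases hi : i = 1
  · simp only [hi, if_true]
    exact h1.add continuous_const
  · simp only [hi, if_false]
    fun_prop

theorem sk_cont (k : ℕ) : Continuous (sk (n := n) k) := by
  have h1 : Continuous fun q : E (n + 2) => q 1 := by fun_prop
  unfold sk
  refine (PiLp.continuous_toLp 2 _).comp (continuous_pi fun i => ?_)
  by_cases hi : i = 1
  · simp only [hi, if_true]
    exact continuous_const.mul h1
  · simp only [hi, if_false]
    fun_prop

theorem Ut_open (p : E (n + 2)) (r : ℝ) : IsOpen (Ut p r) := by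
  exact Metric.isOpen_ball.preimage pc_cont

theorem PcB_ne (i : Fin n) : (i.succ.succ : Fin (n + 2)) ≠ 1 := by
  intro h
  have h1 : (i.succ.succ : Fin (n + 2)) = (0 : Fin (n + 1)).succ := h
  exact Fin.succ_ne_zero i (Fin.succ_injective _ h1)

theorem PcB_pc0 (q : E (n + 2)) : pc q 0 = Real.exp (q 0) * Real.cos (q 1) := rfl

theorem PcB_pc1 (q : E (n + 2)) : pc q 1 = Real.exp (q 0) * Real.sin (q 1) := rfl

theorem PcB_pcs (q : E (n + 2)) (i : Fin n) : pc q i.succ.succ = q i.succ.succ := by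
  change (if i.succ.succ = 0 then Real.exp (q 0) * Real.cos (q 1)
    else if i.succ.succ = 1 then Real.exp (q 0) * Real.sin (q 1) else q i.succ.succ) = _
  rw [if_neg (Fin.succ_ne_zero _), if_neg (PcB_ne i)]

/-- The distance of `pc q` to a point of the axis. -/
theorem PcB_norm {p : E (n + 2)} (hp : ax p) (q : E (n + 2)) :
    ‖pc q - p‖ ^ 2 = Real.exp (2 * q 0) + ∑ i : Fin n, (q i.succ.succ - p i.succ.succ) ^ 2 := by
  rw [EuclideanSpace.real_norm_sq_eq, Fin.sum_univ_succ, Fin.sum_univ_succ]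
  have h0 : (pc q - p) 0 = Real.exp (q 0) * Real.cos (q 1) := by
    change pc q 0 - p 0 = _
    rw [hp.1, sub_zero, PcB_pc0]
  have h1 : (pc q - p) (0 : Fin (n + 1)).succ = Real.exp (q 0) * Real.sin (q 1) := by
    change pc q 1 - p 1 = _
    rw [hp.2, sub_zero, PcB_pc1]
  have hs : ∀ i : Fin n, (pc q - p) i.succ.succ = q i.succ.succ - p i.succ.succ := by
    intro i
    change pc q i.succ.succ - p i.succ.succ = _
    rw [PcB_pcs]
  rw [h0, h1, two_mul, Real.exp_add, ← add_assoc]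
  simp only [hs]
  congr 1
  have h2 := Real.sin_sq_add_cos_sq (q 1)
  calc (Real.exp (q 0) * Real.cos (q 1)) ^ 2 + (Real.exp (q 0) * Real.sin (q 1)) ^ 2 =
      Real.exp (q 0) * Real.exp (q 0) * (Real.sin (q 1) ^ 2 + Real.cos (q 1) ^ 2) := by ring
    _ = _ := by rw [h2, mul_one]

theorem PcB_mem {p : E (n + 2)} (hp : ax p) {r : ℝ} (hr : 0 < r) (q : E (n + 2)) :
    q ∈ Ut p r ↔
      Real.exp (2 * q 0) + ∑ i : Fin n, (q i.succ.succ - p i.succ.succ) ^ 2 < r ^ 2 := by
  rw [← PcB_norm hp q]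
  change pc q ∈ Metric.ball p r ↔ _
  rw [mem_ball_iff_norm, sq_lt_sq₀ (norm_nonneg _) hr.le]

theorem PcB_sq (a b : ℝ) (ha : 0 ≤ a) (hb : 0 ≤ b) (hab : a + b = 1) (u v c : ℝ) :
    (a * u + b * v - c) ^ 2 ≤ a * (u - c) ^ 2 + b * (v - c) ^ 2 := by
  have h : a * (u - c) ^ 2 + b * (v - c) ^ 2 - (a * u + b * v - c) ^ 2 =
      a * b * (u - v) ^ 2 := by
    have hb' : b = 1 - a := by linarith
    subst hb'
    ring
  have h2 : 0 ≤ a * b * (u - v) ^ 2 := by positivity
  linarith

theorem PcB_comb (a b : ℝ) (ha : 0 ≤ a) (hb : 0 ≤ b) (hab : a + b = 1)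
    {X Y Z S T U R : ℝ} (h1 : Z ≤ a * X + b * Y) (h2 : U ≤ a * S + b * T)
    (h3 : X + S < R) (h4 : Y + T < R) : Z + U < R := by
  have h5 : a * (X + S) + b * (Y + T) < R := by
    rcases ha.eq_or_lt with h | h
    · have hb' : b = 1 := by linarith
      rw [← h, hb']
      linarith
    · have h6 : a * (X + S) < a * R := mul_lt_mul_of_pos_left h3 h
      have h7 : b * (Y + T) ≤ b * R := mul_le_mul_of_nonneg_left h4.le hb
      have h8 : a * R + b * R = R := by rw [← add_mul, hab, one_mul]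
      linarith
  linarith

theorem Ut_convex {p : E (n + 2)} (hp : ax p) (r : ℝ) : Convex ℝ (Ut p r) := by
  rcases le_or_gt r 0 with hr | hr
  · have h1 : Ut p r = ∅ := by
      apply Set.eq_empty_of_forall_notMem
      intro q hq
      have h2 : dist (pc q) p < r := hq
      exact absurd (dist_nonneg.trans_lt h2) (not_lt.2 hr)
    rw [h1]
    exact convex_empty
  · intro x hx y hy a b ha hb hab
    rw [PcB_mem hp hr] at hx hy ⊢
    have h0 : (a • x + b • y : E (n + 2)) 0 = a * x 0 + b * y 0 := rfl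
    have hi : ∀ i : Fin n, (a • x + b • y : E (n + 2)) i.succ.succ =
        a * x i.succ.succ + b * y i.succ.succ := fun i => rfl
    rw [h0]
    simp only [hi]
    have h3 : Real.exp (2 * (a * x 0 + b * y 0)) ≤
        a * Real.exp (2 * x 0) + b * Real.exp (2 * y 0) := by
      have h4 := convexOn_exp.2 (Set.mem_univ (2 * x 0)) (Set.mem_univ (2 * y 0)) ha hb hab
      simp only [smul_eq_mul] at h4
      have h5 : 2 * (a * x 0 + b * y 0) = a * (2 * x 0) + b * (2 * y 0) := by ring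
      rw [h5]
      exact h4
    have h6 : ∑ i : Fin n, (a * x i.succ.succ + b * y i.succ.succ - p i.succ.succ) ^ 2 ≤
        a * ∑ i : Fin n, (x i.succ.succ - p i.succ.succ) ^ 2 +
          b * ∑ i : Fin n, (y i.succ.succ - p i.succ.succ) ^ 2 := by
      rw [Finset.mul_sum, Finset.mul_sum, ← Finset.sum_add_distrib]
      exact Finset.sum_le_sum fun i _ => PcB_sq a b ha hb hab _ _ _
    exact PcB_comb a b ha hb hab h3 h6 hx hy

theorem Ut_nonempty {p : E (n + 2)} (hp : ax p) {r : ℝ} (hr : 0 < r) : (Ut p r).Nonempty := by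
  obtain ⟨q, hq0, hqs⟩ : ∃ q : E (n + 2), q 0 = Real.log (r / 2) ∧
      ∀ i : Fin n, q i.succ.succ = p i.succ.succ :=
    ⟨WithLp.toLp 2 fun i => if i = 0 then Real.log (r / 2) else if i = 1 then 0 else p i, rfl,
      fun i => by
        change (if i.succ.succ = 0 then Real.log (r / 2) else
          if i.succ.succ = 1 then 0 else p i.succ.succ) = _
        rw [if_neg (Fin.succ_ne_zero _), if_neg (PcB_ne i)]⟩
  refine ⟨q, ?_⟩
  rw [PcB_mem hp hr, hq0, two_mul, Real.exp_add, Real.exp_log (by positivity)]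
  have h1 : ∑ i : Fin n, (q i.succ.succ - p i.succ.succ) ^ 2 = 0 :=
    Finset.sum_eq_zero fun i _ => by rw [hqs, sub_self, zero_pow two_ne_zero]
  rw [h1, add_zero]
  nlinarith

theorem sh_mem_Ut (p : E (n + 2)) (r : ℝ) (j : ℤ) (q : E (n + 2)) (hq : q ∈ Ut p r) :
    sh j q ∈ Ut p r := by
  change pc (sh j q) ∈ Metric.ball p r
  rw [pc_sh]
  exact hq

theorem sk_mem_Ut {p : E (n + 2)} (hp : ax p) {r : ℝ} {k : ℕ} (q : E (n + 2)) :
    sk k q ∈ Ut p r ↔ q ∈ Ut p r := by
  have h1 := PcB_norm hp (sk k q)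
  have h2 := PcB_norm hp q
  have h0 : sk k q 0 = q 0 := rfl
  have hi : ∀ i : Fin n, sk k q i.succ.succ = q i.succ.succ := by
    intro i
    change (if i.succ.succ = 1 then k * q 1 else q i.succ.succ) = _
    rw [if_neg (PcB_ne i)]
  rw [h0] at h1
  simp only [hi] at h1
  rw [← h2] at h1
  have h3 : ‖pc (sk k q) - p‖ = ‖pc q - p‖ :=
    (sq_eq_sq₀ (norm_nonneg _) (norm_nonneg _)).1 h1
  change pc (sk k q) ∈ Metric.ball p r ↔ pc q ∈ Metric.ball p r
  rw [mem_ball_iff_norm, mem_ball_iff_norm, h3]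

theorem pc_section (q₀ : E (n + 2)) : ∃ s : E (n + 2) → E (n + 2), ContinuousAt s (pc q₀) ∧
    s (pc q₀) = q₀ ∧ ∀ᶠ y in nhds (pc q₀), pc (s y) = y := by
  obtain ⟨z, hz⟩ : ∃ z : E (n + 2) → ℂ, ∀ y, z y = ((y 0 : ℝ) : ℂ) + ((y 1 : ℝ) : ℂ) * Complex.I :=
    ⟨_, fun _ => rfl⟩
  have hzc : Continuous z := by
    have h0 : Continuous fun q : E (n + 2) => q 0 := by fun_prop
    have h1 : Continuous fun q : E (n + 2) => q 1 := by fun_prop
    have h2 : z = fun y => ((y 0 : ℝ) : ℂ) + ((y 1 : ℝ) : ℂ) * Complex.I := funext hz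
    rw [h2]
    exact (Complex.continuous_ofReal.comp h0).add
      ((Complex.continuous_ofReal.comp h1).mul continuous_const)
  obtain ⟨c, hc⟩ : ∃ c : ℂ, c = Complex.exp (((-q₀ 1 : ℝ) : ℂ) * Complex.I) := ⟨_, rfl⟩
  have hcn : ‖c‖ = 1 := by rw [hc, Complex.norm_exp_ofReal_mul_I]
  have hcc : Complex.exp (((q₀ 1 : ℝ) : ℂ) * Complex.I) * c = 1 := by
    rw [hc, ← Complex.exp_add, Complex.ofReal_neg, neg_mul, add_neg_cancel, Complex.exp_zero]
  have hz0 : z (pc q₀) = ((Real.exp (q₀ 0) : ℝ) : ℂ) *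
      Complex.exp (((q₀ 1 : ℝ) : ℂ) * Complex.I) := by
    rw [hz, PcB_pc0, PcB_pc1, Complex.exp_mul_I]
    push_cast
    ring
  have hz1 : z (pc q₀) * c = ((Real.exp (q₀ 0) : ℝ) : ℂ) := by
    rw [hz0, mul_assoc, hcc, mul_one]
  have hzn : ‖z (pc q₀)‖ = Real.exp (q₀ 0) := by
    rw [hz0, norm_mul, Complex.norm_exp_ofReal_mul_I, mul_one, Complex.norm_real,
      Real.norm_of_nonneg (Real.exp_pos _).le]
  have hzne : z (pc q₀) ≠ 0 := by
    intro h
    rw [h, norm_zero] at hzn
    exact (Real.exp_pos (q₀ 0)).ne hzn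
  refine ⟨fun y => WithLp.toLp 2 fun i => if i = 0 then Real.log ‖z y‖ else
    if i = 1 then q₀ 1 + Complex.arg (z y * c) else y i, ?_, ?_, ?_⟩
  · refine (PiLp.continuous_toLp 2 _).continuousAt.comp (continuousAt_pi.2 fun i => ?_)
    by_cases hi : i = 0
    · simp only [hi, if_true]
      exact (hzc.norm.continuousAt).log (norm_ne_zero_iff.2 hzne)
    · by_cases hi1 : i = 1
      · simp only [hi1, if_true, one_ne_zero, if_false]
        refine continuousAt_const.add (ContinuousAt.comp (f := fun y => z y * c)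
          (Complex.continuousAt_arg ?_) (hzc.mul continuous_const).continuousAt)
        rw [hz1]
        exact Complex.ofReal_mem_slitPlane.2 (Real.exp_pos _)
      · simp only [hi, hi1, if_false]
        fun_prop
  · ext i
    change (if i = 0 then Real.log ‖z (pc q₀)‖ else
      if i = 1 then q₀ 1 + Complex.arg (z (pc q₀) * c) else pc q₀ i) = q₀ i
    by_cases hi : i = 0
    · rw [if_pos hi, hzn, Real.log_exp, hi]
    · by_cases hi1 : i = 1
      · rw [if_neg hi, if_pos hi1, hz1, Complex.arg_ofReal_of_nonneg (Real.exp_pos _).le,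
          add_zero, hi1]
      · rw [if_neg hi, if_neg hi1]
        change (if i = 0 then Real.exp (q₀ 0) * Real.cos (q₀ 1)
          else if i = 1 then Real.exp (q₀ 0) * Real.sin (q₀ 1) else q₀ i) = q₀ i
        rw [if_neg hi, if_neg hi1]
  · filter_upwards [hzc.continuousAt.eventually_ne hzne] with y hy
    have h1 : ((‖z y‖ : ℝ) : ℂ) * Complex.exp (((q₀ 1 + Complex.arg (z y * c) : ℝ) : ℂ) *
        Complex.I) = z y := by
      have h2 := Complex.norm_mul_exp_arg_mul_I (z y * c)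
      rw [norm_mul, hcn, mul_one] at h2
      rw [Complex.ofReal_add, add_mul, Complex.exp_add]
      calc ((‖z y‖ : ℝ) : ℂ) * (Complex.exp (((q₀ 1 : ℝ) : ℂ) * Complex.I) *
            Complex.exp (((Complex.arg (z y * c) : ℝ) : ℂ) * Complex.I)) =
            Complex.exp (((q₀ 1 : ℝ) : ℂ) * Complex.I) * (((‖z y‖ : ℝ) : ℂ) *
              Complex.exp (((Complex.arg (z y * c) : ℝ) : ℂ) * Complex.I)) := by ring
        _ = z y * (Complex.exp (((q₀ 1 : ℝ) : ℂ) * Complex.I) * c) := by rw [h2]; ring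
        _ = z y := by rw [hcc, mul_one]
    have hre : ‖z y‖ * Real.cos (q₀ 1 + Complex.arg (z y * c)) = y 0 := by
      have h3 := congrArg Complex.re h1
      rw [Complex.re_ofReal_mul, Complex.exp_ofReal_mul_I_re] at h3
      rw [h3, hz]
      simp
    have him : ‖z y‖ * Real.sin (q₀ 1 + Complex.arg (z y * c)) = y 1 := by
      have h3 := congrArg Complex.im h1
      rw [Complex.im_ofReal_mul, Complex.exp_ofReal_mul_I_im] at h3
      rw [h3, hz]
      simp
    have hexp : Real.exp (Real.log ‖z y‖) = ‖z y‖ := Real.exp_log (norm_pos_iff.2 hy)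
    ext i
    by_cases hi : i = 0
    · subst hi
      change Real.exp (Real.log ‖z y‖) * Real.cos (q₀ 1 + Complex.arg (z y * c)) = y 0
      rw [hexp, hre]
    · by_cases hi1 : i = 1
      · subst hi1
        change Real.exp (Real.log ‖z y‖) * Real.sin (q₀ 1 + Complex.arg (z y * c)) = y 1
        rw [hexp, him]
      · change (if i = 0 then _ else if i = 1 then _ else
          (if i = 0 then _ else if i = 1 then _ else y i)) = y i
        rw [if_neg hi, if_neg hi1, if_neg hi, if_neg hi1]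

end MB
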