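import Pool.Agent.H16.MT.Uni

/-!
Row Per (MP_c844e7, about 110 lines).  The period of a lift.

PROOF.  Fix `q₀ ∈ Ut p r` (`Ut_nonempty`).  For `j : ℤ` the map `g ∘ sh j` is continuous on `Ut p r` and satisfies the same conditions (`sh_mem_Ut`, `pc_sh`).
(a) If `g (sh i q) = g (sh j q)` for one `q ∈ Ut p r`, then for all (`lift_unique`).
(b) The set `U ∩ f ⁻¹' {pc q₀}` is compact (`h.prop`) and every point of it is isolated (`h.disc`), so it is finite.  The points `g (sh i q₀)`, `i : ℕ`, belong to it, so two coincide: `g (sh i q₀) = g (sh j q₀)`, `i < j`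
(`Set.Finite.exists_lt_map_eq_of_forall_mem` or `Finite.exists_ne_map_eq_of_infinite`); by (a) for all `q`; replacing `q` by `sh (-i) q`: `g (sh (j - i) q) = g q` for all `q ∈ Ut p r` (`sh_sh`, `sh_zero`).
(c) `S = {j : ℤ | ∀ q ∈ Ut p r, g (sh j q) = g q}` is a subgroup of `ℤ` (`AddSubgroup ℤ`), not `⊥` by (b); `Int.subgroup_cyclic` / `AddSubgroup.isAddCyclic`: `S = kℤ` with `k ≥ 1` (take `k` = natAbs of the generator; or
take the least positive element and divide with remainder).  (d) By (a) (with `i = j`, `j = 0`) `g (sh j q) = g q` for one `q` iff `j ∈ S` iff `k ∣ j`.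
-/

set_option autoImplicit false

open MeasureTheory Set

namespace MB

variable {n : ℕ}

/-- Two shifts of a lift which agree at one point agree everywhere. -/
theorem Per_unique {f : E (n + 2) → E (n + 2)} {U : Set (E (n + 2))} {p : E (n + 2)} {r : ℝ}
    (hp : ax p) (h : Nrm f U p r) {g : E (n + 2) → E (n + 2)}
    (hg : ContinuousOn g (Ut p r)) (hg' : ∀ q ∈ Ut p r, g q ∈ U ∧ f (g q) = pc q)
    {i j : ℤ} {q₀ : E (n + 2)} (hq₀ : q₀ ∈ Ut p r) (he : g (sh i q₀) = g (sh j q₀)) :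
    ∀ q ∈ Ut p r, g (sh i q) = g (sh j q) := by
  have hc : ∀ a : ℤ, ContinuousOn (fun q => g (sh a q)) (Ut p r) := fun a =>
    hg.comp (sh_cont a).continuousOn (fun q hq => sh_mem_Ut p r a q hq)
  have hc' : ∀ a : ℤ, ∀ q ∈ Ut p r, g (sh a q) ∈ U ∧ f (g (sh a q)) = pc q := by
    intro a q hq
    obtain ⟨h1, h2⟩ := hg' (sh a q) (sh_mem_Ut p r a q hq)
    exact ⟨h1, by rw [h2, pc_sh]⟩
  exact lift_unique hp h (hc i) (hc' i) (hc j) (hc' j) hq₀ he

/-- The subgroup of periods. -/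
def Per_S (g : E (n + 2) → E (n + 2)) (p : E (n + 2)) (r : ℝ) : AddSubgroup ℤ where
  carrier := {j | ∀ q ∈ Ut p r, g (sh j q) = g q}
  zero_mem' := by
    intro q _
    rw [sh_zero]
  add_mem' := by
    intro a b ha hb q hq
    rw [← sh_sh, ha _ (sh_mem_Ut p r b q hq), hb q hq]
  neg_mem' := by
    intro a ha q hq
    have h1 := ha (sh (-a) q) (sh_mem_Ut p r (-a) q hq)
    rw [sh_sh, add_neg_cancel, sh_zero] at h1
    exact h1.symm

theorem exists_period {f : E (n + 2) → E (n + 2)} {U : Set (E (n + 2))} {p : E (n + 2)} {r : ℝ}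
    (hp : ax p) (hr : 0 < r) (h : Nrm f U p r) {g : E (n + 2) → E (n + 2)}
    (hg : ContinuousOn g (Ut p r)) (hg' : ∀ q ∈ Ut p r, g q ∈ U ∧ f (g q) = pc q) :
    ∃ k : ℕ, 1 ≤ k ∧ ∀ q ∈ Ut p r, ∀ j : ℤ, g (sh j q) = g q ↔ (k : ℤ) ∣ j := by
  obtain ⟨q₀, hq₀⟩ := Ut_nonempty hp hr
  -- the fibre is finite
  have hK : IsCompact (U ∩ f ⁻¹' {pc q₀}) :=
    h.prop {pc q₀} (by rintro x rfl; exact hq₀) isCompact_singleton
  have hKf : (U ∩ f ⁻¹' {pc q₀}).Finite := by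
    by_contra hinf
    have hinf' : (U ∩ f ⁻¹' {pc q₀}).Infinite := hinf
    obtain ⟨x, hxK, hx⟩ := hinf'.exists_accPt_of_subset_isCompact hK Subset.rfl
    obtain ⟨W, hW, hW'⟩ := h.disc x hxK.1
    rw [accPt_iff_nhds] at hx
    obtain ⟨y, ⟨hyW, hyK⟩, hyx⟩ := hx W hW
    refine hyx (hW' y hyW ?_)
    have e1 : f y = pc q₀ := hyK.2
    have e2 : f x = pc q₀ := hxK.2
    rw [e1, e2]
  obtain ⟨i, j, hij, hgij⟩ : ∃ i j : ℕ, i < j ∧ g (sh (i : ℤ) q₀) = g (sh (j : ℤ) q₀) := by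
    refine hKf.exists_lt_map_eq_of_forall_mem (f := fun i : ℕ => g (sh (i : ℤ) q₀)) ?_
    intro i
    obtain ⟨h1, h2⟩ := hg' (sh (i : ℤ) q₀) (sh_mem_Ut p r i q₀ hq₀)
    exact ⟨h1, by simp only [mem_preimage, mem_singleton_iff]; rw [h2, pc_sh]⟩
  have hS : ((j : ℤ) - i) ∈ Per_S g p r := by
    intro q hq
    have h1 := Per_unique hp h hg hg' hq₀ hgij (sh (-(i : ℤ)) q)
      (sh_mem_Ut p r (-(i : ℤ)) q hq)
    rw [sh_sh, sh_sh, add_neg_cancel, sh_zero, ← sub_eq_add_neg] at h1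
    exact h1.symm
  obtain ⟨a, ha⟩ := Int.subgroup_cyclic (Per_S g p r)
  have hmem : ∀ b : ℤ, b ∈ Per_S g p r ↔ ((a.natAbs : ℕ) : ℤ) ∣ b := by
    intro b
    rw [ha, ← AddSubgroup.zmultiples_eq_closure, Int.mem_zmultiples_iff, Int.natAbs_dvd]
  refine ⟨a.natAbs, ?_, ?_⟩
  · by_contra hlt
    have h0 : a.natAbs = 0 := by omega
    have h1 := (hmem _).1 hS
    rw [h0] at h1
    have h2 : (j : ℤ) - i = 0 := by simpa using h1
    omega
  · intro q hq b
    rw [← hmem b]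
    constructor
    · intro he q' hq'
      have he' : g (sh b q) = g (sh 0 q) := by rw [sh_zero]; exact he
      have h1 := Per_unique hp h hg hg' hq he' q' hq'
      rw [sh_zero] at h1
      exact h1
    · intro hb
      exact hb q hq

end MB
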