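import Pool.Agent.H16.MT.TDefs

/-!
Row StA (MP_c844e7, about 110 lines).  Linear algebra: a surjective map to the plane in adapted coordinates.

PROOF.  `V = E (n+2)`, `Kr = ker A`, `S = Krᗮ`: `finrank Kr = n` (rank-nullity, `finrank (E 2) = 2`), `finrank S = 2`.  `T = span {e₀, e₁}` (`e_i = EuclideanSpace.single i 1`), `finrank T = 2` (orthonormal).
`S ≃ₗᵢ T` (`LinearIsometryEquiv.ofInnerProductSpace`-type constructions: both have orthonormal bases indexed by `Fin 2`, `stdOrthonormalBasis`, `OrthonormalBasis.equiv`/`repr.trans repr.symm`), followed by the inclusion: `L : S →ₗᵢ V`.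
`L.extend : V →ₗᵢ V` (`LinearIsometry.extend`, `LinearIsometry.extend_apply`), bijective in finite dimension: `R = L.extend.toLinearIsometryEquiv rfl`.  `R '' S = T`, so for `x ∈ Kr = Sᗮ`: `R x ⊥ T`, that is `R x 0 = R x 1 = 0`.
`A` restricted to `S` is injective (`S ⊓ ker A = ⊥`) and `finrank S = 2 = finrank (E 2)`, so bijective; `B v = R ((A|_S)⁻¹ v) ∈ T` (linear in finite dimension: `LinearMap.toContinuousLinearMap`).  Elements of `T` have vanishing
coordinates `i.succ.succ`.  For `x = x_S + x_K` (orthogonal decomposition) `A x = A x_S`, `B (A x) = R x_S = R x - R x_K`, so the coordinates `0, 1` agree with those of `R x`.  If `B v 0 = B v 1 = 0` then `B v = 0`, so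
`(A|_S)⁻¹ v = 0`, `v = 0`.
-/

set_option autoImplicit false

open MeasureTheory Set

namespace MB

theorem StA_iso {n : ℕ} (S : Submodule ℝ (E (n + 2))) (hS : Module.finrank ℝ S = 2) :
    ∃ (b : OrthonormalBasis (Fin 2) ℝ S) (L : S →ₗᵢ[ℝ] E (n + 2)),
      L (b 0) = EuclideanSpace.single (0 : Fin (n + 2)) (1 : ℝ) ∧
      L (b 1) = EuclideanSpace.single (1 : Fin (n + 2)) (1 : ℝ) ∧
      ∀ (s : S) (i : Fin n), L s i.succ.succ = 0 := by
  obtain ⟨b⟩ : Nonempty (OrthonormalBasis (Fin 2) ℝ S) :=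
    ⟨(stdOrthonormalBasis ℝ S).reindex (finCongr hS)⟩
  obtain ⟨v, hv⟩ : ∃ v : Fin 2 → E (n + 2), v = ![EuclideanSpace.single (0 : Fin (n + 2)) (1 : ℝ),
    EuclideanSpace.single (1 : Fin (n + 2)) (1 : ℝ)] := ⟨_, rfl⟩
  have hvo : Orthonormal ℝ v := by
    rw [orthonormal_iff_ite]
    intro i j
    have h01 : (1 : Fin (n + 2)) ≠ 0 := by simp
    have h10 : (0 : Fin (n + 2)) ≠ 1 := by simp
    fin_cases i <;> fin_cases j <;> simp [hv, EuclideanSpace.inner_single_left, h01, h10]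
  have hfo : Orthonormal ℝ ((b.toBasis.constr ℝ v : S →ₗ[ℝ] E (n + 2)) ∘ b.toBasis) := by
    have h1 : ((b.toBasis.constr ℝ v : S →ₗ[ℝ] E (n + 2)) ∘ b.toBasis) = v := by
      funext i
      exact b.toBasis.constr_basis ℝ v i
    rw [h1]
    exact hvo
  have hbo : Orthonormal ℝ b.toBasis := by
    rw [OrthonormalBasis.coe_toBasis]
    exact b.orthonormal
  refine ⟨b, (b.toBasis.constr ℝ v).isometryOfOrthonormal hbo hfo, ?_, ?_, ?_⟩
  · have h1 := b.toBasis.constr_basis ℝ v 0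
    rw [OrthonormalBasis.coe_toBasis] at h1
    refine Eq.trans h1 ?_
    rw [hv]
    rfl
  · have h1 := b.toBasis.constr_basis ℝ v 1
    rw [OrthonormalBasis.coe_toBasis] at h1
    refine Eq.trans h1 ?_
    rw [hv]
    rfl
  · intro s i
    have h1 := b.toBasis.constr_apply_fintype ℝ v s
    have h2 : ((b.toBasis.constr ℝ v).isometryOfOrthonormal hbo hfo) s = b.toBasis.constr ℝ v s := rfl
    have hi0 : (i.succ.succ : Fin (n + 2)) ≠ 0 := Fin.succ_ne_zero _
    have hi1 : (i.succ.succ : Fin (n + 2)) ≠ 1 := by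
      intro h
      have h3 := congrArg Fin.val h
      simp only [Fin.val_succ, Fin.val_one] at h3
      omega
    rw [h2, h1, Fin.sum_univ_two, hv]
    simp [hi0, hi1]

theorem exists_adapted {n : ℕ} (A : E (n + 2) →L[ℝ] E 2) (hA : Function.Surjective A) :
    ∃ (R : E (n + 2) ≃ₗᵢ[ℝ] E (n + 2)) (B : E 2 →L[ℝ] E (n + 2)),
      (∀ (v : E 2) (i : Fin n), B v i.succ.succ = 0) ∧
      (∀ x, B (A x) 0 = R x 0 ∧ B (A x) 1 = R x 1) ∧
      ∀ v : E 2, B v 0 = 0 → B v 1 = 0 → v = 0 := by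
  obtain ⟨K, hK⟩ : ∃ K : Submodule ℝ (E (n + 2)), K = LinearMap.ker (A : E (n + 2) →ₗ[ℝ] E 2) := ⟨_, rfl⟩
  have hKm : ∀ x, x ∈ K ↔ A x = 0 := by
    intro x
    rw [hK, LinearMap.mem_ker]
    rfl
  have hKf : Module.finrank ℝ K = n := by
    have h1 := LinearMap.finrank_range_add_finrank_ker (A : E (n + 2) →ₗ[ℝ] E 2)
    have h2 : LinearMap.range (A : E (n + 2) →ₗ[ℝ] E 2) = ⊤ := LinearMap.range_eq_top.2 hA
    rw [h2, finrank_top, finrank_euclideanSpace_fin, finrank_euclideanSpace_fin, ← hK] at h1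
    omega
  have hSf : Module.finrank ℝ Kᗮ = 2 := by
    have h1 := K.finrank_add_finrank_orthogonal
    rw [hKf, finrank_euclideanSpace_fin] at h1
    omega
  obtain ⟨b, L, hL0, hL1, hLs⟩ := StA_iso Kᗮ hSf
  obtain ⟨AS, hAS⟩ : ∃ AS : Kᗮ →ₗ[ℝ] E 2, ∀ s, AS s = A (s : E (n + 2)) :=
    ⟨(A : E (n + 2) →ₗ[ℝ] E 2).domRestrict Kᗮ, fun s => rfl⟩
  have hinj : Function.Injective AS := by
    rw [injective_iff_map_eq_zero]
    intro s hs
    rw [hAS] at hs
    have h1 : (s : E (n + 2)) ∈ K := (hKm _).2 hs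
    have h2 : (s : E (n + 2)) ∈ K ⊓ Kᗮ := ⟨h1, s.2⟩
    rw [Submodule.inf_orthogonal_eq_bot, Submodule.mem_bot] at h2
    exact Subtype.ext h2
  have hfr : Module.finrank ℝ Kᗮ = Module.finrank ℝ (E 2) := by rw [hSf, finrank_euclideanSpace_fin]
  obtain ⟨Q, hQ⟩ : ∃ Q : Kᗮ ≃ₗ[ℝ] E 2, ∀ s, Q s = AS s :=
    ⟨LinearEquiv.ofInjectiveOfFinrankEq AS hinj hfr, fun s => rfl⟩
  obtain ⟨R, hR⟩ : ∃ R : E (n + 2) ≃ₗᵢ[ℝ] E (n + 2), ∀ s : Kᗮ, R (s : E (n + 2)) = L s :=
    ⟨L.extend.toLinearIsometryEquiv rfl, fun s => L.extend_apply s⟩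
  have hRK : ∀ x ∈ K, R x 0 = 0 ∧ R x 1 = 0 := by
    intro x hx
    have h1 : ∀ (s : Kᗮ), inner ℝ (L s) (R x) = 0 := by
      intro s
      rw [← hR s, LinearIsometryEquiv.inner_map_map, real_inner_comm]
      exact s.2 x hx
    have h2 := h1 (b 0)
    have h3 := h1 (b 1)
    rw [hL0, EuclideanSpace.inner_single_left] at h2
    rw [hL1, EuclideanSpace.inner_single_left] at h3
    simp only [map_one, one_mul] at h2 h3
    exact ⟨h2, h3⟩
  obtain ⟨B, hB⟩ : ∃ B : E 2 →L[ℝ] E (n + 2), ∀ v, B v = L (Q.symm v) :=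
    ⟨(L.toLinearMap ∘ₗ (Q.symm : E 2 →ₗ[ℝ] Kᗮ)).toContinuousLinearMap, fun v => rfl⟩
  refine ⟨R, B, ?_, ?_, ?_⟩
  · intro v i
    rw [hB]
    exact hLs _ _
  · intro x
    obtain ⟨k, hk, s, hs, hx⟩ := K.exists_add_mem_mem_orthogonal x
    have h1 : A x = A s := by
      rw [hx, map_add, (hKm k).1 hk, zero_add]
    have h2 : Q.symm (A x) = ⟨s, hs⟩ := by
      rw [LinearEquiv.symm_apply_eq, hQ, hAS, h1]
    have h3 : R x = R k + L ⟨s, hs⟩ := by
      rw [← hR ⟨s, hs⟩, ← map_add, ← hx]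
    obtain ⟨h4, h5⟩ := hRK k hk
    rw [hB, h2, h3]
    constructor
    · rw [PiLp.add_apply, h4, zero_add]
    · rw [PiLp.add_apply, h5, zero_add]
  · intro v h0 h1
    have h2 : L (Q.symm v) = 0 := by
      rw [hB] at h0 h1
      ext j
      rcases Fin.eq_zero_or_eq_succ j with rfl | ⟨i, rfl⟩
      · exact h0
      · rcases Fin.eq_zero_or_eq_succ i with rfl | ⟨i', rfl⟩
        · exact h1
        · exact hLs _ _
    have h3 : Q.symm v = 0 := by
      have := L.injective (a₁ := Q.symm v) (a₂ := 0) (by rw [h2, map_zero])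
      exact this
    have h4 := congrArg Q h3
    rwa [LinearEquiv.apply_symm_apply, map_zero] at h4

end MB
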