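import Pool.Agent.H16.MT.PcB

/-!
Row Uni (MP_c844e7, about 80 lines).  Uniqueness of lifts.

PROOF.  `Ut p r` is preconnected (`Ut_convex`) and open.  Let `A = {q ∈ Ut p r : g₁ q = g₂ q}`, `B = {q ∈ Ut p r : g₁ q ≠ g₂ q}`.  `B` is open in `Ut p r` (Hausdorff, continuity; as `Ut p r` is open, `B` is open).  `A` is open: if
`g₁ q = g₂ q = u`, `f u = pc q` is not on the axis (`pc_not_ax`), so `f` is injective on a neighbourhood `W` of `u` (`h.linj`); for `q'` near `q`, `q' ∈ Ut p r`, `g₁ q', g₂ q' ∈ W` (continuity) and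
`f (g₁ q') = pc q' = f (g₂ q')`, so `g₁ q' = g₂ q'`.  `A` is nonempty, so `A = Ut p r` (`IsPreconnected.subset_left_of_subset_union` or `isPreconnected_iff_subset_of_disjoint`).
-/

set_option autoImplicit false

open MeasureTheory Set

namespace MB

variable {n : ℕ}

theorem lift_unique {f : E (n + 2) → E (n + 2)} {U : Set (E (n + 2))} {p : E (n + 2)} {r : ℝ}
    (hp : ax p) (h : Nrm f U p r) {g₁ g₂ : E (n + 2) → E (n + 2)} (h1 : ContinuousOn g₁ (Ut p r))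
    (h1' : ∀ q ∈ Ut p r, g₁ q ∈ U ∧ f (g₁ q) = pc q) (h2 : ContinuousOn g₂ (Ut p r))
    (h2' : ∀ q ∈ Ut p r, g₂ q ∈ U ∧ f (g₂ q) = pc q) {q₀ : E (n + 2)} (hq₀ : q₀ ∈ Ut p r)
    (he : g₁ q₀ = g₂ q₀) : ∀ q ∈ Ut p r, g₁ q = g₂ q := by
  have hopen := Ut_open p r
  have hv : IsOpen {q | q ∈ Ut p r ∧ g₁ q ≠ g₂ q} := by
    have e : {q | q ∈ Ut p r ∧ g₁ q ≠ g₂ q} =
        Ut p r ∩ (fun q => (g₁ q, g₂ q)) ⁻¹' {x | x.1 ≠ x.2} := rfl
    rw [e]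
    exact (h1.prodMk h2).isOpen_inter_preimage hopen
      (isOpen_ne_fun continuous_fst continuous_snd)
  have hu : IsOpen {q | q ∈ Ut p r ∧ g₁ q = g₂ q} := by
    rw [isOpen_iff_mem_nhds]
    rintro q ⟨hq, hqe⟩
    have hn : Ut p r ∈ nhds q := hopen.mem_nhds hq
    obtain ⟨W, hW, hinj⟩ := h.linj (g₁ q) (h1' q hq).1
      (by rw [(h1' q hq).2]; exact pc_not_ax q)
    have c1 : ∀ᶠ q' in nhds q, g₁ q' ∈ W := (h1.continuousAt hn).eventually hW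
    have c2 : ∀ᶠ q' in nhds q, g₂ q' ∈ W := by
      refine (h2.continuousAt hn).eventually ?_
      rw [← hqe]
      exact hW
    filter_upwards [hn, c1, c2] with q' hq' w1 w2
    exact ⟨hq', hinj w1 w2 (by rw [(h1' q' hq').2, (h2' q' hq').2])⟩
  have hdis : Disjoint {q | q ∈ Ut p r ∧ g₁ q = g₂ q} {q | q ∈ Ut p r ∧ g₁ q ≠ g₂ q} :=
    Set.disjoint_left.2 fun q hq hq' => hq'.2 hq.2
  have hsub : Ut p r ⊆ {q | q ∈ Ut p r ∧ g₁ q = g₂ q} ∪ {q | q ∈ Ut p r ∧ g₁ q ≠ g₂ q} := by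
    intro q hq
    by_cases hqe : g₁ q = g₂ q
    · exact Or.inl ⟨hq, hqe⟩
    · exact Or.inr ⟨hq, hqe⟩
  have hfin := IsPreconnected.subset_left_of_subset_union hu hv hdis hsub
    ⟨q₀, hq₀, hq₀, he⟩ (Ut_convex hp r).isPreconnected
  exact fun q hq => (hfin hq).2

end MB
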